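import Pool.Agent.Lib.DCOL.Words

/-!
Closed words that do a block at each site of a box.
-/

set_option autoImplicit false

namespace Pool.Agent.DCOL

open Finset

variable {d : ℕ}

/-- The box of the first `j` directions. -/
noncomputable def bx (κ : Fin d → ℕ) (j : ℕ) : Finset (Site d) :=
  Fintype.piFinset fun i => if (i : ℕ) < j then Finset.Ico (0 : ℤ) (κ i) else {0}

theorem mem_bx {κ : Fin d → ℕ} {j : ℕ} {b : Site d} : b ∈ bx κ j ↔
    ∀ i : Fin d, ((i : ℕ) < j → 0 ≤ b i ∧ b i < κ i) ∧ (j ≤ (i : ℕ) → b i = 0) := by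
  rw [bx, Fintype.mem_piFinset]
  refine forall_congr' fun i => ?_
  split_ifs with h
  · rw [Finset.mem_Ico]
    exact ⟨fun h1 => ⟨fun _ => h1, fun h2 => absurd h (by omega)⟩, fun h1 => h1.1 h⟩
  · rw [Finset.mem_singleton]
    exact ⟨fun h1 => ⟨fun h2 => absurd h2 h, fun _ => h1⟩, fun h1 => h1.2 (by omega)⟩

theorem bx_congr {κ κ' : Fin d → ℕ} {j : ℕ} (h : ∀ i : Fin d, (i : ℕ) < j → κ i = κ' i) :
    bx κ j = bx κ' j := by
  ext b
  rw [mem_bx, mem_bx]
  refine forall_congr' fun i => ?_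
  constructor
  · rintro ⟨h1, h2⟩
    exact ⟨fun hi => by rw [← h i hi]; exact h1 hi, h2⟩
  · rintro ⟨h1, h2⟩
    exact ⟨fun hi => by rw [h i hi]; exact h1 hi, h2⟩

theorem vec_true (i l : Fin d) : vec (i, true) l = if l = i then 1 else 0 := by
  simp only [vec, if_true]
  by_cases h : l = i
  · subst h; simp
  · simp [h]

theorem sum_bx_succ {M : Type*} [AddCommMonoid M] (κ : Fin d → ℕ) {j : ℕ} (hj : j < d)
    (f : Site d → M) : ∑ b ∈ bx κ (j + 1), f b =
      ∑ t ∈ Finset.range (κ ⟨j, hj⟩), ∑ b ∈ bx κ j, f (b + t • vec (⟨j, hj⟩, true)) := by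
  classical
  rw [← Finset.sum_product' (Finset.range (κ ⟨j, hj⟩)) (bx κ j)
    (fun t b => f (b + t • vec (⟨j, hj⟩, true)))]
  refine Finset.sum_bij' (fun b _ => ((b ⟨j, hj⟩).toNat, Function.update b ⟨j, hj⟩ 0))
    (fun x _ => x.2 + x.1 • vec (⟨j, hj⟩, true)) ?_ ?_ ?_ ?_ ?_
  · intro b hb
    rw [mem_bx] at hb
    rw [Finset.mem_product, Finset.mem_range, mem_bx]
    have h1 := (hb ⟨j, hj⟩).1 (by simp)
    refine ⟨by simp only; omega, fun i => ⟨fun hi => ?_, fun hi => ?_⟩⟩ <;> dsimp only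
    · have hne : i ≠ ⟨j, hj⟩ := by rintro rfl; simp at hi
      rw [Function.update_of_ne hne]
      exact (hb i).1 (by omega)
    · by_cases hne : i = ⟨j, hj⟩
      · subst hne; rw [Function.update_self]
      · rw [Function.update_of_ne hne]
        refine (hb i).2 ?_
        have : (i : ℕ) ≠ j := fun h => hne (Fin.ext h)
        omega
  · rintro ⟨t, b⟩ hx
    rw [Finset.mem_product, Finset.mem_range, mem_bx] at hx
    obtain ⟨ht, hb⟩ := hx
    dsimp only at ht hb
    rw [mem_bx]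
    intro i
    simp only [Pi.add_apply, Pi.smul_apply, vec_true, smul_ite, smul_zero]
    by_cases hne : i = ⟨j, hj⟩
    · subst hne
      have h1 := (hb ⟨j, hj⟩).2 le_rfl
      simp only [if_true, h1]
      refine ⟨fun _ => ⟨by simp, by simpa using ht⟩, fun h => ?_⟩
      simp at h
    · have h2 : (i : ℕ) ≠ j := fun h => hne (Fin.ext h)
      rw [if_neg hne, add_zero]
      exact ⟨fun h => (hb i).1 (by omega), fun h => (hb i).2 (by omega)⟩
  · intro b hb
    rw [mem_bx] at hb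
    have h1 := (hb ⟨j, hj⟩).1 (by simp)
    funext i
    simp only [Pi.add_apply, Pi.smul_apply, vec_true, smul_ite, smul_zero]
    by_cases hne : i = ⟨j, hj⟩
    · subst hne
      rw [Function.update_self, if_pos rfl]
      simp only [nsmul_eq_mul, mul_one, zero_add]
      omega
    · rw [Function.update_of_ne hne, if_neg hne, add_zero]
  · rintro ⟨t, b⟩ hx
    rw [Finset.mem_product, Finset.mem_range, mem_bx] at hx
    obtain ⟨ht, hb⟩ := hx
    dsimp only at ht hb
    have h1 := (hb ⟨j, hj⟩).2 le_rfl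
    refine Prod.ext ?_ ?_
    · simp only [Pi.add_apply, Pi.smul_apply, vec_true, if_true, h1]
      simp
    · funext i
      by_cases hne : i = ⟨j, hj⟩
      · subst hne
        simp only [Function.update_self, h1]
      · simp only [Function.update_of_ne hne, Pi.add_apply, Pi.smul_apply, vec_true, if_neg hne,
          smul_zero, add_zero]
  · intro b hb
    rw [mem_bx] at hb
    have h1 := (hb ⟨j, hj⟩).1 (by simp)
    congr 1
    funext i
    simp only [Pi.add_apply, Pi.smul_apply, vec_true, smul_ite, smul_zero]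
    by_cases hne : i = ⟨j, hj⟩
    · subst hne
      rw [Function.update_self, if_pos rfl]
      simp only [nsmul_eq_mul, mul_one, zero_add]
      omega
    · rw [Function.update_of_ne hne, if_neg hne, add_zero]

theorem card_bx_succ (κ : Fin d → ℕ) {j : ℕ} (hj : j < d) :
    (bx κ (j + 1)).card = κ ⟨j, hj⟩ * (bx κ j).card := by
  have h := sum_bx_succ κ hj (fun _ => (1 : ℕ))
  simpa using h

/-- The words with a block at each site of the box of the first `j` directions. -/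
structure Dat (W : Finset (List (Step d))) (m : ℕ) (G : Site d → ℕ) (κ : Fin d → ℕ) (j : ℕ)
    (W' : Finset (List (Step d))) (m' : ℕ) (ρ : Site d → ℕ) : Prop where
  fam : Fam W' m' fun x => (∑ b ∈ bx κ j, G (x - b)) + ρ x
  card : W'.card = W.card ^ (bx κ j).card
  lo : m * (bx κ j).card ≤ m'
  hi : m' ≤ (m + 2 * j) * (bx κ j).card
  le : ∀ x, ρ x ≤ 2 * j
  sup : ∀ x, ρ x ≠ 0 → ∀ i : Fin d, j ≤ (i : ℕ) → x i = 0

theorem bx_zero (κ : Fin d → ℕ) : bx κ 0 = {0} := by
  ext b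
  rw [mem_bx, Finset.mem_singleton]
  constructor
  · intro h
    funext i
    exact (h i).2 (by omega)
  · rintro rfl i
    exact ⟨fun h => absurd h (by omega), fun _ => rfl⟩

theorem Dat.zero {W : Finset (List (Step d))} {m : ℕ} {G : Site d → ℕ} (h : Fam W m G)
    (κ : Fin d → ℕ) : Dat W m G κ 0 W m 0 where
  fam := ⟨h.len, h.cl, fun w hw x => by rw [h.cnt w hw, bx_zero]; simp⟩
  card := by rw [bx_zero]; simp
  lo := by rw [bx_zero]; simp
  hi := by rw [bx_zero]; simp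
  le := fun x => by simp
  sup := fun x hx => absurd rfl hx

theorem sum_range_le_one (κ : ℕ) (P : ℕ → ℕ) (c : ℕ)
    (hP : ∀ i, P i ≤ c) (hu : ∀ i i', P i ≠ 0 → P i' ≠ 0 → i = i') :
    ∑ i ∈ Finset.range κ, P i ≤ c := by
  by_cases h : ∃ i ∈ Finset.range κ, P i ≠ 0
  · obtain ⟨i, hi, h1⟩ := h
    rw [Finset.sum_eq_single_of_mem i hi]
    · exact hP i
    · intro i' _ hne
      by_contra h2
      exact hne (hu _ _ h2 h1)
  · push Not at h
    rw [Finset.sum_eq_zero h]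
    exact Nat.zero_le _

theorem Dat.step {W : Finset (List (Step d))} {m : ℕ} {G : Site d → ℕ} {κ : Fin d → ℕ} {j : ℕ}
    {W' : Finset (List (Step d))} {m' : ℕ} {ρ : Site d → ℕ} (h : Dat W m G κ j W' m' ρ)
    (hj : j < d) (hκ : ∀ i, 1 ≤ κ i) : ∃ (W'' : Finset (List (Step d))) (ρ' : Site d → ℕ),
      Dat W m G κ (j + 1) W'' (κ ⟨j, hj⟩ * (m' + 2)) ρ' := by
  obtain ⟨W'', hc, hF⟩ := h.fam.row (κ ⟨j, hj⟩) (⟨j, hj⟩, true)
  have hB : 1 ≤ (bx κ j).card := by
    rw [Nat.one_le_iff_ne_zero, Finset.card_ne_zero]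
    refine ⟨0, ?_⟩
    rw [mem_bx]
    exact fun i => ⟨fun _ => ⟨le_rfl, by have := hκ i; simp only [Pi.zero_apply]; omega⟩, fun _ => rfl⟩
  refine ⟨W'', fun x => (∑ i ∈ Finset.range (κ ⟨j, hj⟩), ρ (x - i • vec (⟨j, hj⟩, true))) +
    (lineU (κ ⟨j, hj⟩) (⟨j, hj⟩, true) x + lineD (κ ⟨j, hj⟩) (⟨j, hj⟩, true) x), ?_, ?_, ?_, ?_, ?_, ?_⟩
  · refine ⟨hF.len, hF.cl, fun w hw x => ?_⟩
    rw [hF.cnt w hw, sum_bx_succ κ hj, Finset.sum_add_distrib, add_assoc]
    congr 1
    refine Finset.sum_congr rfl fun t _ => Finset.sum_congr rfl fun b _ => ?_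
    congr 1
    abel
  · rw [hc, h.card, card_bx_succ κ hj, ← pow_mul, mul_comm]
  · rw [card_bx_succ κ hj]
    calc m * (κ ⟨j, hj⟩ * (bx κ j).card) = κ ⟨j, hj⟩ * (m * (bx κ j).card) := by ring
      _ ≤ κ ⟨j, hj⟩ * (m' + 2) := Nat.mul_le_mul_left _ (h.lo.trans (by omega))
  · rw [card_bx_succ κ hj]
    calc κ ⟨j, hj⟩ * (m' + 2) ≤ κ ⟨j, hj⟩ * ((m + 2 * j) * (bx κ j).card + 2 * (bx κ j).card) :=
          Nat.mul_le_mul_left _ (by have := h.hi; omega)
      _ = _ := by ring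
  · intro x
    have h1 : ∑ i ∈ Finset.range (κ ⟨j, hj⟩), ρ (x - i • vec (⟨j, hj⟩, true)) ≤ 2 * j := by
      refine sum_range_le_one (κ ⟨j, hj⟩) _ _ (fun i => h.le _) fun i i' hi hi' => ?_
      have e1 := h.sup _ hi ⟨j, hj⟩ le_rfl
      have e2 := h.sup _ hi' ⟨j, hj⟩ le_rfl
      rw [Pi.sub_apply, Pi.smul_apply, vec_true, if_pos rfl, nsmul_eq_mul, mul_one] at e1 e2
      omega
    have h2 : lineU (κ ⟨j, hj⟩) (⟨j, hj⟩, true) x ≤ 1 := by
      refine sum_range_le_one (κ ⟨j, hj⟩) _ _ (fun i => by split_ifs <;> simp)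
        fun i i' hi hi' => ?_
      have e1 : x = (i + 1) • vec (⟨j, hj⟩, true) := by
        by_contra hh; exact hi (if_neg hh)
      have e2 : x = (i' + 1) • vec (⟨j, hj⟩, true) := by
        by_contra hh; exact hi' (if_neg hh)
      have e3 := congrFun (e1.symm.trans e2) ⟨j, hj⟩
      simp only [Pi.smul_apply, vec_true, if_true, nsmul_eq_mul, mul_one] at e3
      push_cast at e3
      omega
    have h3 : lineD (κ ⟨j, hj⟩) (⟨j, hj⟩, true) x ≤ 1 := by
      refine sum_range_le_one (κ ⟨j, hj⟩) _ _ (fun i => by split_ifs <;> simp)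
        fun i i' hi hi' => ?_
      have e1 : x = i • vec (⟨j, hj⟩, true) := by
        by_contra hh; exact hi (if_neg hh)
      have e2 : x = i' • vec (⟨j, hj⟩, true) := by
        by_contra hh; exact hi' (if_neg hh)
      have e3 := congrFun (e1.symm.trans e2) ⟨j, hj⟩
      simp only [Pi.smul_apply, vec_true, if_true, nsmul_eq_mul, mul_one] at e3
      omega
    omega
  · intro x hx i hi
    have hne : i ≠ ⟨j, hj⟩ := by rintro rfl; simp at hi
    have hv : ∀ t : ℕ, (t • vec (⟨j, hj⟩, true) : Site d) i = 0 := by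
      intro t
      simp only [Pi.smul_apply, vec_true, if_neg hne, smul_zero]
    by_cases h1 : ∑ i ∈ Finset.range (κ ⟨j, hj⟩), ρ (x - i • vec (⟨j, hj⟩, true)) = 0
    · by_cases h2 : lineU (κ ⟨j, hj⟩) (⟨j, hj⟩, true) x = 0
      · have h3 : lineD (κ ⟨j, hj⟩) (⟨j, hj⟩, true) x ≠ 0 := by
          intro h3; exact hx (by simp only [h1, h2, h3, add_zero])
        obtain ⟨t, -, ht⟩ := Finset.exists_ne_zero_of_sum_ne_zero h3
        have e1 : x = t • vec (⟨j, hj⟩, true) := by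
          by_contra hh; exact ht (if_neg hh)
        rw [e1, hv]
      · obtain ⟨t, -, ht⟩ := Finset.exists_ne_zero_of_sum_ne_zero h2
        have e1 : x = (t + 1) • vec (⟨j, hj⟩, true) := by
          by_contra hh; exact ht (if_neg hh)
        rw [e1, hv]
    · obtain ⟨t, -, ht⟩ := Finset.exists_ne_zero_of_sum_ne_zero h1
      have e1 := h.sup _ ht i (by omega)
      rw [Pi.sub_apply, hv, sub_zero] at e1
      exact e1

theorem Dat.congr {W : Finset (List (Step d))} {m : ℕ} {G : Site d → ℕ} {κ κ' : Fin d → ℕ} {j : ℕ}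
    {W' : Finset (List (Step d))} {m' : ℕ} {ρ : Site d → ℕ} (h : Dat W m G κ j W' m' ρ)
    (hh : bx κ j = bx κ' j) : Dat W m G κ' j W' m' ρ := by
  refine ⟨?_, ?_, ?_, ?_, h.le, h.sup⟩
  · rw [← hh]; exact h.fam
  · rw [← hh]; exact h.card
  · rw [← hh]; exact h.lo
  · rw [← hh]; exact h.hi

theorem Dat.exists_all {W : Finset (List (Step d))} {m : ℕ} {G : Site d → ℕ} (h : Fam W m G)
    {κ : Fin d → ℕ} (hκ : ∀ i, 1 ≤ κ i) : ∀ j ≤ d, ∃ (W' : Finset (List (Step d))) (m' : ℕ)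
      (ρ : Site d → ℕ), Dat W m G κ j W' m' ρ
  | 0, _ => ⟨W, m, 0, Dat.zero h κ⟩
  | j + 1, hj => by
    obtain ⟨W', m', ρ, h1⟩ := Dat.exists_all h hκ j (by omega)
    obtain ⟨W'', ρ', h2⟩ := h1.step (by omega) hκ
    exact ⟨W'', _, ρ', h2⟩

end Pool.Agent.DCOL
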