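import Pool.Agent.Lib.DCOL.Box

/-!
The energy as a quadratic form of the local times.
-/

set_option autoImplicit false

namespace Pool.Agent.DCOL

open Finset

variable {d : ℕ}

/-- The energy of a function on the lattice. -/
noncomputable def En (β γ : ℝ) (h : Site d → ℝ) : ℝ :=
  β * ∑' x, h x ^ 2 - γ / (2 * d) * ∑' x, ∑ s : Step d, h x * h (x + vec s)

theorem fs_mul_right {f g : Site d → ℝ} (hf : (Function.support f).Finite) :
    (Function.support fun x => f x * g x).Finite :=
  hf.subset fun x hx => by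
    intro h
    exact hx (by simp only [h, zero_mul])

theorem fs_add {f g : Site d → ℝ} (hf : (Function.support f).Finite)
    (hg : (Function.support g).Finite) : (Function.support fun x => f x + g x).Finite :=
  (hf.union hg).subset fun x hx => by
    by_contra h
    rw [Set.mem_union, not_or, Function.mem_support, Function.mem_support, not_not, not_not] at h
    exact hx (by simp only [h.1, h.2, add_zero])

theorem fs_sub {f g : Site d → ℝ} (hf : (Function.support f).Finite)
    (hg : (Function.support g).Finite) : (Function.support fun x => f x - g x).Finite :=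
  (hf.union hg).subset fun x hx => by
    by_contra h
    rw [Set.mem_union, not_or, Function.mem_support, Function.mem_support, not_not, not_not] at h
    exact hx (by simp only [h.1, h.2, sub_zero])

theorem fs_sq {f : Site d → ℝ} (hf : (Function.support f).Finite) :
    (Function.support fun x => f x ^ 2).Finite :=
  hf.subset fun x hx => by
    intro h
    exact hx (by simp only [h]; norm_num)

theorem fs_shift {f : Site d → ℝ} (hf : (Function.support f).Finite) (a : Site d) :
    (Function.support fun x => f (x + a)).Finite := by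
  have := support_shift hf (-a)
  simpa using this

theorem tsum_shift' (f : Site d → ℝ) (a : Site d) : ∑' x, f (x + a) = ∑' x, f x :=
  (Equiv.addRight a).tsum_eq f

theorem tsum_diff_sq {h : Site d → ℝ} (hf : (Function.support h).Finite) (a : Site d) :
    ∑' x, (h (x + a) - h x) ^ 2 = 2 * ∑' x, h x ^ 2 - 2 * ∑' x, h x * h (x + a) := by
  have h1 : ∀ x, (h (x + a) - h x) ^ 2 = (h (x + a) ^ 2 + h x ^ 2) - 2 * (h x * h (x + a)) := by
    intro x; ring
  simp_rw [h1]
  rw [((summable_fs (fs_sq (fs_shift hf a))).add (summable_fs (fs_sq hf))).tsum_sub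
    ((summable_fs (fs_mul_right hf)).mul_left 2),
    (summable_fs (fs_sq (fs_shift hf a))).tsum_add (summable_fs (fs_sq hf)), tsum_mul_left,
    tsum_shift' (fun x => h x ^ 2)]
  ring

theorem tsum_nbr {h : Site d → ℝ} (hf : (Function.support h).Finite) :
    ∑' x, ∑ s : Step d, h x * h (x + vec s) =
      2 * ∑ i : Fin d, ∑' x, h x * h (x + vec (i, true)) := by
  rw [Summable.tsum_finsetSum fun s _ => summable_fs (fs_mul_right hf), Fintype.sum_prod_type,
    Finset.mul_sum]
  refine Finset.sum_congr rfl fun i _ => ?_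
  rw [Fintype.sum_bool, two_mul]
  congr 1
  have h1 : (vec (i, false) : Site d) = -vec (i, true) := by simp [vec]
  rw [h1, ← tsum_shift' (fun x => h x * h (x + -vec (i, true))) (vec (i, true))]
  refine tsum_congr fun x => ?_
  rw [add_neg_cancel_right, mul_comm]

/-- The energy as a sum of squares. -/
theorem En_eq (hd : 0 < d) {β γ : ℝ} {h : Site d → ℝ} (hf : (Function.support h).Finite) :
    En β γ h = (β - γ) * ∑' x, h x ^ 2 +
      γ / (2 * d) * ∑ i : Fin d, ∑' x, (h (x + vec (i, true)) - h x) ^ 2 := by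
  have hd' : (d : ℝ) ≠ 0 := by exact_mod_cast hd.ne'
  rw [En, tsum_nbr hf]
  simp_rw [tsum_diff_sq hf]
  rw [Finset.sum_sub_distrib, Finset.sum_const, Finset.card_univ, Fintype.card_fin, nsmul_eq_mul,
    ← Finset.mul_sum]
  field_simp
  ring

theorem En_nonneg (hd : 0 < d) {β γ : ℝ} (hγ : 0 ≤ γ) (hβ : γ ≤ β) {h : Site d → ℝ}
    (hf : (Function.support h).Finite) : 0 ≤ En β γ h := by
  rw [En_eq hd hf]
  have h1 : 0 ≤ ∑' x, h x ^ 2 := tsum_nonneg fun x => sq_nonneg _
  have h2 : 0 ≤ ∑ i : Fin d, ∑' x, (h (x + vec (i, true)) - h x) ^ 2 :=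
    Finset.sum_nonneg fun i _ => tsum_nonneg fun x => sq_nonneg _
  have h3 : 0 ≤ β - γ := by linarith
  positivity

theorem En_add (hd : 0 < d) {β γ : ℝ} (hγ : 0 ≤ γ) (hβ : γ ≤ β) {u v : Site d → ℝ}
    (hu : (Function.support u).Finite) (hv : (Function.support v).Finite) :
    En β γ (fun x => u x + v x) ≤ 2 * En β γ u + 2 * En β γ v := by
  rw [En_eq hd (fs_add hu hv), En_eq hd hu, En_eq hd hv]
  have h1 : ∑' x, (u x + v x) ^ 2 ≤ 2 * ∑' x, u x ^ 2 + 2 * ∑' x, v x ^ 2 := by
    rw [← tsum_mul_left, ← tsum_mul_left,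
      ← ((summable_fs (fs_sq hu)).mul_left 2).tsum_add ((summable_fs (fs_sq hv)).mul_left 2)]
    refine Summable.tsum_le_tsum (fun x => ?_) (summable_fs (fs_sq (fs_add hu hv)))
      (((summable_fs (fs_sq hu)).mul_left 2).add ((summable_fs (fs_sq hv)).mul_left 2))
    nlinarith [sq_nonneg (u x - v x)]
  have h2 : ∑ i : Fin d, ∑' x, (u (x + vec (i, true)) + v (x + vec (i, true)) - (u x + v x)) ^ 2 ≤
      2 * (∑ i : Fin d, ∑' x, (u (x + vec (i, true)) - u x) ^ 2) +
      2 * (∑ i : Fin d, ∑' x, (v (x + vec (i, true)) - v x) ^ 2) := by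
    rw [Finset.mul_sum, Finset.mul_sum, ← Finset.sum_add_distrib]
    refine Finset.sum_le_sum fun i _ => ?_
    have su := summable_fs (fs_sq (fs_sub (fs_shift hu (vec (i, true))) hu))
    have sv := summable_fs (fs_sq (fs_sub (fs_shift hv (vec (i, true))) hv))
    have suv := summable_fs (fs_sq (fs_sub (fs_shift (fs_add hu hv) (vec (i, true)))
      (fs_add hu hv)))
    rw [← tsum_mul_left, ← tsum_mul_left, ← (su.mul_left 2).tsum_add (sv.mul_left 2)]
    refine Summable.tsum_le_tsum (fun x => ?_) suv ((su.mul_left 2).add (sv.mul_left 2))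
    nlinarith [sq_nonneg ((u (x + vec (i, true)) - u x) - (v (x + vec (i, true)) - v x))]
  have h3 : 0 ≤ β - γ := by linarith
  have h4 : 0 ≤ γ / (2 * d) := by positivity
  nlinarith [mul_le_mul_of_nonneg_left h1 h3, mul_le_mul_of_nonneg_left h2 h4]

theorem En_le {β γ : ℝ} (hγ : 0 ≤ γ) {v : Site d → ℝ}
    (hv0 : ∀ x, 0 ≤ v x) : En β γ v ≤ β * ∑' x, v x ^ 2 := by
  rw [En]
  have : 0 ≤ γ / (2 * d) * ∑' x, ∑ s : Step d, v x * v (x + vec s) :=
    mul_nonneg (by positivity) (tsum_nonneg fun x => Finset.sum_nonneg fun s _ =>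
      mul_nonneg (hv0 _) (hv0 _))
  linarith

/-! ### Sums of translates -/

section

variable {G : Site d → ℕ} {m : ℕ}

theorem fs_cast (hG : (Function.support G).Finite) :
    (Function.support fun x => (G x : ℝ)).Finite :=
  hG.subset fun x hx => by
    intro h
    exact hx (by simp only [h]; norm_num)

theorem sum_trans_le (hG : (Function.support G).Finite) (hm : ∑' x, (G x : ℝ) = m)
    (F : Finset (Site d)) (x : Site d) : ∑ b ∈ F, (G (x - b) : ℝ) ≤ m := by
  classical
  have h1 : ∑ b ∈ F, (G (x - b) : ℝ) = ∑ y ∈ F.image fun b => x - b, (G y : ℝ) := by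
    rw [Finset.sum_image]
    intro b _ b' _ h
    exact sub_right_injective h
  rw [h1, ← hm]
  exact (summable_fs (fs_cast hG)).sum_le_tsum _ fun y _ => Nat.cast_nonneg _

theorem fs_trans (hG : (Function.support G).Finite) (F : Finset (Site d)) :
    (Function.support fun x => ∑ b ∈ F, (G (x - b) : ℝ)).Finite := by
  classical
  induction F using Finset.induction_on with
  | empty => simp
  | insert b F hb ih =>
    simp_rw [Finset.sum_insert hb]
    exact fs_add (f := fun x => (G (x - b) : ℝ)) (support_shift (fs_cast hG) b) ih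

theorem tsum_trans (hG : (Function.support G).Finite) (hm : ∑' x, (G x : ℝ) = m)
    (F : Finset (Site d)) : ∑' x, ∑ b ∈ F, (G (x - b) : ℝ) = F.card * m := by
  rw [Summable.tsum_finsetSum fun b _ => summable_fs (support_shift (fs_cast hG) b)]
  rw [Finset.sum_congr rfl fun b _ => (tsum_shift (fun x => (G x : ℝ)) b).trans hm,
    Finset.sum_const, nsmul_eq_mul]

theorem tsum_trans_sq (hG : (Function.support G).Finite) (hm : ∑' x, (G x : ℝ) = m)
    (F : Finset (Site d)) : ∑' x, (∑ b ∈ F, (G (x - b) : ℝ)) ^ 2 ≤ m ^ 2 * F.card := by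
  calc ∑' x, (∑ b ∈ F, (G (x - b) : ℝ)) ^ 2 ≤ ∑' x, m * ∑ b ∈ F, (G (x - b) : ℝ) := by
        refine Summable.tsum_le_tsum (fun x => ?_) (summable_fs (fs_sq (fs_trans hG F)))
          ((summable_fs (fs_trans hG F)).mul_left _)
        rw [sq]
        exact mul_le_mul_of_nonneg_right (sum_trans_le hG hm F x)
          (Finset.sum_nonneg fun b _ => Nat.cast_nonneg _)
    _ = m ^ 2 * F.card := by rw [tsum_mul_left, tsum_trans hG hm]; ring

theorem tsum_trans_diff [DecidableEq (Site d)] (hG : (Function.support G).Finite) (hm : ∑' x, (G x : ℝ) = m)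
    (B : Finset (Site d)) (e : Site d) :
    ∑' x, ((∑ b ∈ B, (G (x + e - b) : ℝ)) - ∑ b ∈ B, (G (x - b) : ℝ)) ^ 2 ≤
      2 * m ^ 2 * (B \ B.image fun b => b - e).card := by
  set B' := B.image fun b => b - e with hB'
  have hcard : B'.card = B.card := Finset.card_image_of_injective _ (sub_left_injective)
  have h1 : ∀ x, ∑ b ∈ B, (G (x + e - b) : ℝ) = ∑ b ∈ B', (G (x - b) : ℝ) := by
    intro x
    rw [hB', Finset.sum_image fun b _ b' _ h => sub_left_injective h]
    refine Finset.sum_congr rfl fun b _ => ?_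
    rw [show x - (b - e) = x + e - b by abel]
  have h2 : ∀ x, (∑ b ∈ B', (G (x - b) : ℝ)) - ∑ b ∈ B, (G (x - b) : ℝ) =
      (∑ b ∈ B' \ B, (G (x - b) : ℝ)) - ∑ b ∈ B \ B', (G (x - b) : ℝ) := by
    intro x
    rw [Finset.sum_sdiff_sub_sum_sdiff]
  have h3 : (B' \ B).card = (B \ B').card := by
    have e1 := Finset.card_sdiff_add_card_inter B' B
    have e2 := Finset.card_sdiff_add_card_inter B B'
    rw [Finset.inter_comm] at e2
    omega
  simp_rw [h1, h2]
  calc ∑' x, ((∑ b ∈ B' \ B, (G (x - b) : ℝ)) - ∑ b ∈ B \ B', (G (x - b) : ℝ)) ^ 2 ≤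
      ∑' x, ((∑ b ∈ B' \ B, (G (x - b) : ℝ)) ^ 2 + (∑ b ∈ B \ B', (G (x - b) : ℝ)) ^ 2) := by
        refine Summable.tsum_le_tsum (fun x => ?_)
          (summable_fs (fs_sq (fs_sub (fs_trans hG _) (fs_trans hG _))))
          ((summable_fs (fs_sq (fs_trans hG _))).add (summable_fs (fs_sq (fs_trans hG _))))
        have a1 : (0 : ℝ) ≤ ∑ b ∈ B' \ B, (G (x - b) : ℝ) :=
          Finset.sum_nonneg fun b _ => Nat.cast_nonneg _
        have a2 : (0 : ℝ) ≤ ∑ b ∈ B \ B', (G (x - b) : ℝ) :=
          Finset.sum_nonneg fun b _ => Nat.cast_nonneg _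
        nlinarith [mul_nonneg a1 a2]
    _ ≤ m ^ 2 * (B' \ B).card + m ^ 2 * (B \ B').card := by
        rw [(summable_fs (fs_sq (fs_trans hG _))).tsum_add (summable_fs (fs_sq (fs_trans hG _)))]
        exact add_le_add (tsum_trans_sq hG hm _) (tsum_trans_sq hG hm _)
    _ = _ := by rw [h3]; ring

end

theorem card_bx_pos {κ : Fin d → ℕ} (hκ : ∀ i, 1 ≤ κ i) (j : ℕ) : 0 < (bx κ j).card := by
  rw [Finset.card_pos]
  refine ⟨0, ?_⟩
  rw [mem_bx]
  exact fun i => ⟨fun _ => ⟨le_rfl, by have := hκ i; simp only [Pi.zero_apply]; omega⟩,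
    fun _ => rfl⟩

/-- The faces of a box are small. -/
theorem card_face [DecidableEq (Site d)] {κ : Fin d → ℕ} {K : ℕ} (i : Fin d) (hK : K ≤ κ i) :
    K * (bx κ d \ (bx κ d).image fun b => b - vec (i, true)).card ≤ (bx κ d).card := by
  have h0 : K * (bx κ d \ (bx κ d).image fun b => b - vec (i, true)).card =
      (Finset.range K ×ˢ (bx κ d \ (bx κ d).image fun b => b - vec (i, true))).card := by
    rw [Finset.card_product, Finset.card_range]
  rw [h0]
  refine Finset.card_le_card_of_injOn (fun x => x.2 - x.1 • vec (i, true)) ?_ ?_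
  · rintro ⟨t, b⟩ hx
    rw [Finset.mem_coe, Finset.mem_product, Finset.mem_range, Finset.mem_sdiff] at hx
    obtain ⟨ht, hb, hb'⟩ := hx
    dsimp only at ht hb hb'
    rw [mem_bx] at hb
    have h1 := (hb i).1 i.2
    have h2 : b i = κ i - 1 := by
      by_contra hne
      refine hb' (Finset.mem_image.mpr ⟨b + vec (i, true), ?_, by simp⟩)
      rw [mem_bx]
      intro l
      by_cases hl : l = i
      · subst hl
        rw [Pi.add_apply, vec_true, if_pos rfl]
        exact ⟨fun _ => by omega, fun h => absurd l.2 (by omega)⟩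
      · rw [Pi.add_apply, vec_true, if_neg hl, add_zero]
        exact hb l
    rw [Finset.mem_coe, mem_bx]
    intro l
    by_cases hl : l = i
    · subst hl
      have h3 : (t • vec (l, true) : Site d) l = t := by
        rw [Pi.smul_apply, vec_true, if_pos rfl, nsmul_eq_mul, mul_one]
      dsimp only
      rw [Pi.sub_apply, h3]
      exact ⟨fun _ => by omega, fun h => absurd l.2 (by omega)⟩
    · simp only [Pi.sub_apply, Pi.smul_apply, vec_true, if_neg hl, smul_zero, sub_zero]
      exact hb l
  · rintro ⟨t, b⟩ hx ⟨t', b'⟩ hx' he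
    rw [Finset.mem_coe, Finset.mem_product, Finset.mem_range, Finset.mem_sdiff] at hx hx'
    obtain ⟨ht, hb, hb1⟩ := hx
    obtain ⟨ht', hb', hb1'⟩ := hx'
    dsimp only at ht hb hb1 ht' hb' hb1' he
    have key : ∀ c : Site d, c ∈ bx κ d → c ∉ (bx κ d).image (fun b => b - vec (i, true)) →
        c i = κ i - 1 := by
      intro c hc hc'
      rw [mem_bx] at hc
      have h1 := (hc i).1 i.2
      by_contra hne
      refine hc' (Finset.mem_image.mpr ⟨c + vec (i, true), ?_, by simp⟩)
      rw [mem_bx]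
      intro l
      by_cases hl : l = i
      · subst hl
        rw [Pi.add_apply, vec_true, if_pos rfl]
        exact ⟨fun _ => by omega, fun h => absurd l.2 (by omega)⟩
      · rw [Pi.add_apply, vec_true, if_neg hl, add_zero]
        exact hc l
    have h2 := key b hb hb1
    have h3 := key b' hb' hb1'
    have h4 := congrFun he i
    have h6 : ∀ t : ℕ, (t • vec (i, true) : Site d) i = t := fun t => by
      rw [Pi.smul_apply, vec_true, if_pos rfl, nsmul_eq_mul, mul_one]
    rw [Pi.sub_apply, Pi.sub_apply, h6, h6] at h4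
    have h5 : t = t' := by omega
    subst h5
    exact Prod.ext rfl (sub_left_injective he)

end Pool.Agent.DCOL
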