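import Pool.Agent.Lib.DCOL.Model

/-!
Low density of the range near the critical line.
-/

set_option autoImplicit false

namespace Pool.Agent.DCOL

open Finset

variable {d : ℕ}

theorem fs_loc (w : List (Step d)) : (Function.support (loc w)).Finite := by
  have h : (Function.support fun x : Site d => if x = 0 then (1 : ℝ) else 0).Finite :=
    (Set.finite_singleton (0 : Site d)).subset fun x hx => by
      by_contra h; exact hx (if_neg h)
  exact fs_add h (fs_cast (lt_support w))

theorem En_ge_Nf (hd : 0 < d) (i₀ : Fin d) {β γ : ℝ} (hγ : 0 ≤ γ) (hβ : γ ≤ β) (c : ℤ)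
    (w : List (Step d)) : γ / (2 * d) * (Nf i₀ c w).card ≤ En β γ (loc w) := by
  classical
  rw [En_eq hd (fs_loc w)]
  have h1 : 0 ≤ ∑' x, loc w x ^ 2 := tsum_nonneg fun x => sq_nonneg _
  have h2 : ∑' x, (loc w (x + vec (i₀, true)) - loc w x) ^ 2 ≤
      ∑ i : Fin d, ∑' x, (loc w (x + vec (i, true)) - loc w x) ^ 2 :=
    Finset.single_le_sum (f := fun i : Fin d => ∑' x, (loc w (x + vec (i, true)) - loc w x) ^ 2)
      (fun i _ => tsum_nonneg fun x => sq_nonneg _) (Finset.mem_univ i₀)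
  have h3 : ((Nf i₀ c w).card : ℝ) ≤ ∑' x, (loc w (x + vec (i₀, true)) - loc w x) ^ 2 := by
    have s1 : Summable fun x => (loc w (x + vec (i₀, true)) - loc w x) ^ 2 :=
      summable_fs (fs_sq (fs_sub (fs_shift (fs_loc w) _) (fs_loc w)))
    calc ((Nf i₀ c w).card : ℝ) = ∑ _x ∈ (Nf i₀ c w).image (fun x => x + vec (i₀, true)), (1 : ℝ) := by
          rw [Finset.sum_const, nsmul_eq_mul, mul_one,
            Finset.card_image_of_injective _ (add_left_injective _)]
      _ ≤ ∑ x ∈ (Nf i₀ c w).image (fun x => x + vec (i₀, true)),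
            (loc w (x + vec (i₀, true)) - loc w x) ^ 2 := by
        refine Finset.sum_le_sum fun y hy => ?_
        obtain ⟨x, hx, rfl⟩ := Finset.mem_image.mp hy
        rw [mem_Nf] at hx
        have hne : (locN w (x + vec (i₀, true) + vec (i₀, true)) : ℤ) -
            (locN w (x + vec (i₀, true)) : ℤ) ≠ 0 := by
          have := hx.2
          omega
        have h4 : (1 : ℤ) ≤ ((locN w (x + vec (i₀, true) + vec (i₀, true)) : ℤ) -
            (locN w (x + vec (i₀, true)) : ℤ)) ^ 2 := by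
          have h5 := sq_nonneg ((locN w (x + vec (i₀, true) + vec (i₀, true)) : ℤ) -
            (locN w (x + vec (i₀, true)) : ℤ))
          have h6 := pow_ne_zero 2 hne
          omega
        rw [loc_eq, loc_eq]
        exact_mod_cast h4
      _ ≤ _ := s1.sum_le_tsum _ fun y _ => sq_nonneg _
  have h4 : 0 ≤ β - γ := by linarith
  have h5 : 0 ≤ γ / (2 * d) := by positivity
  nlinarith [mul_nonneg h4 h1, mul_le_mul_of_nonneg_left (h3.trans h2) h5]

/-- The weight of the words with a large range. -/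
theorem bad_sum (hd : 0 < d) {β ε : ℝ} (hβ : 0 < β) (hε : 0 < ε) :
    ∃ c : ℝ, 0 < c ∧ ∀ γ, β / 2 ≤ γ → γ ≤ β → ∀ n : ℕ,
      ∑ w ∈ (allw d n).filter (fun w => ε * n ≤ ((vis 0 w).card : ℝ)),
        Real.exp (-En β γ (loc w)) ≤ (2 * d) ^ n * (3 * n + 7) * Real.exp (-(c * n)) := by
  have hd' : (0 : ℝ) < d := by exact_mod_cast hd
  set θ : ℝ := 1 / (8 * d ^ 2) with hθ
  have hθ0 : 0 < θ := by positivity
  set τ : ℝ := Real.log (1 + θ) with hτ
  have hτ0 : 0 < τ := Real.log_pos (by linarith)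
  have hl2 : 0 < Real.log 2 := Real.log_pos (by norm_num)
  set δ : ℝ := ε * τ / (6 * (τ + Real.log 2)) with hδ
  have hδ0 : 0 < δ := by positivity
  have hδ1 : δ * (τ + Real.log 2) = ε * τ / 6 := by
    rw [hδ]; field_simp
  refine ⟨min (ε * τ / 6) (β * δ / (4 * d)), by positivity, fun γ hγ hγβ n => ?_⟩
  set c : ℝ := min (ε * τ / 6) (β * δ / (4 * d)) with hc
  have hn0 : (0 : ℝ) ≤ n := Nat.cast_nonneg _
  set D := ⌊δ * n⌋₊ with hD
  set a := ⌈ε * n / 3⌉₊ - D with ha
  set i₀ : Fin d := ⟨0, hd⟩ with hi₀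
  have hγ0 : 0 ≤ γ := by linarith
  have ha1 : ε * n / 3 - δ * n ≤ a := by
    have h1 : ((⌈ε * n / 3⌉₊ : ℕ) : ℝ) - (D : ℝ) ≤ a := by
      rw [ha, sub_le_iff_le_add]
      have : ⌈ε * n / 3⌉₊ ≤ (⌈ε * n / 3⌉₊ - D) + D := le_tsub_add
      exact_mod_cast this
    have h2 : ε * n / 3 ≤ (⌈ε * n / 3⌉₊ : ℕ) := Nat.le_ceil _
    have h3 : (D : ℝ) ≤ δ * n := Nat.floor_le (by positivity)
    linarith
  have hGG : ∀ z : ℤ, ((GG i₀ z n D a).card : ℝ) ≤ (2 * d) ^ n * (n + 2) * Real.exp (-(c * n)) := by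
    intro z
    have h1 := card_GG i₀ hd z n D a
    rw [← hθ] at h1
    have h2 : (0 : ℝ) < (1 + θ) ^ a := by positivity
    rw [← le_div_iff₀ h2] at h1
    refine h1.trans ?_
    rw [div_le_iff₀ h2]
    have h3 : (2 : ℝ) ^ D ≤ Real.exp (-(c * n)) * (1 + θ) ^ a := by
      rw [← Real.exp_log (show (0 : ℝ) < 2 ^ D by positivity), ← Real.exp_log h2, ← Real.exp_add,
        Real.log_pow, Real.log_pow, ← hτ]
      refine Real.exp_le_exp.mpr ?_
      have e1 : (D : ℝ) ≤ δ * n := Nat.floor_le (by positivity)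
      have e2 : (D : ℝ) * Real.log 2 ≤ δ * n * Real.log 2 := by gcongr
      have e3 : (ε * n / 3 - δ * n) * τ ≤ a * τ := by gcongr
      have e4 : c * n ≤ ε * τ / 6 * n := by
        gcongr; exact min_le_left _ _
      have e5 : δ * (τ + Real.log 2) * n = ε * τ / 6 * n := by rw [hδ1]
      nlinarith
    calc (2 * (d : ℝ)) ^ n * 2 ^ D * (n + 2) = (2 * d) ^ n * (n + 2) * 2 ^ D := by ring
      _ ≤ (2 * d) ^ n * (n + 2) * (Real.exp (-(c * n)) * (1 + θ) ^ a) := by gcongr
      _ = _ := by ring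
  have key : ∀ w ∈ (allw d n).filter (fun w => ε * n ≤ ((vis 0 w).card : ℝ)),
      Real.exp (-En β γ (loc w)) ≤ Real.exp (-(c * n)) +
        ∑ z ∈ ({0, 1, 2} : Finset ℤ), if w ∈ GG i₀ z n D a then (1 : ℝ) else 0 := by
    intro w hw
    rw [Finset.mem_filter] at hw
    obtain ⟨hwn, hwv⟩ := hw
    have hs0 : 0 ≤ ∑ z ∈ ({0, 1, 2} : Finset ℤ), if w ∈ GG i₀ z n D a then (1 : ℝ) else 0 :=
      Finset.sum_nonneg fun z _ => by split_ifs <;> norm_num
    by_cases hN : ∃ z : ℤ, D < (Nf i₀ z w).card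
    · obtain ⟨z, hz⟩ := hN
      have h1 := En_ge_Nf hd i₀ hγ0 hγβ z w
      have h2 : δ * n ≤ (Nf i₀ z w).card := by
        have e1 := Nat.lt_floor_add_one (δ * n)
        have e2 : ((D + 1 : ℕ) : ℝ) ≤ (Nf i₀ z w).card := by exact_mod_cast hz
        push_cast at e2
        linarith
      have h3 : c * n ≤ En β γ (loc w) := by
        calc c * n ≤ β * δ / (4 * d) * n := by
              gcongr; exact min_le_right _ _
          _ = (β / 2) / (2 * d) * (δ * n) := by field_simp; ring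
          _ ≤ γ / (2 * d) * (Nf i₀ z w).card := by gcongr
          _ ≤ _ := h1
      have h4 : Real.exp (-En β γ (loc w)) ≤ Real.exp (-(c * n)) :=
        Real.exp_le_exp.mpr (neg_le_neg h3)
      linarith
    · push Not at hN
      have h1 : (vis 0 w).card = ∑ z ∈ ({0, 1, 2} : Finset ℤ),
          ((vis 0 w).filter fun x => x i₀ % 3 = z).card := by
        refine Finset.card_eq_sum_card_fiberwise fun x _ => ?_
        have e1 := Int.emod_nonneg (x i₀) (by norm_num : (3 : ℤ) ≠ 0)
        have e2 := Int.emod_lt_of_pos (x i₀) (by norm_num : (0 : ℤ) < 3)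
        simp only [Finset.coe_insert, Finset.coe_singleton, Set.mem_insert_iff,
          Set.mem_singleton_iff]
        omega
      obtain ⟨z, hz, hz1⟩ : ∃ z ∈ ({0, 1, 2} : Finset ℤ),
          ⌈ε * n / 3⌉₊ ≤ ((vis 0 w).filter fun x => x i₀ % 3 = z).card := by
        by_contra hcon
        push Not at hcon
        have e1 : ∀ z ∈ ({0, 1, 2} : Finset ℤ),
            (((vis 0 w).filter fun x => x i₀ % 3 = z).card : ℝ) < ε * n / 3 := fun z hz =>
          Nat.lt_ceil.mp (hcon z hz)
        have e2 : ((vis 0 w).card : ℝ) < ∑ _z ∈ ({0, 1, 2} : Finset ℤ), ε * n / 3 := by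
          rw [h1]
          push_cast
          exact Finset.sum_lt_sum_of_nonempty (by simp) e1
        rw [Finset.sum_const] at e2
        have e3 : ({0, 1, 2} : Finset ℤ).card = 3 := rfl
        rw [e3, nsmul_eq_mul] at e2
        push_cast at e2
        linarith
      have h2 : w ∈ GG i₀ z n D a := by
        rw [GG, Finset.mem_filter]
        refine ⟨hwn, hN z, ?_⟩
        rw [ha, Gd]
        have e1 := Finset.le_card_sdiff (Nf i₀ z w) ((vis 0 w).filter fun x => x i₀ % 3 = z)
        have e2 := hN z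
        omega
      have h3 : (1 : ℝ) ≤ ∑ z ∈ ({0, 1, 2} : Finset ℤ), if w ∈ GG i₀ z n D a then (1 : ℝ) else 0 := by
        calc (1 : ℝ) = if w ∈ GG i₀ z n D a then (1 : ℝ) else 0 := by rw [if_pos h2]
          _ ≤ _ := Finset.single_le_sum
            (f := fun z => if w ∈ GG i₀ z n D a then (1 : ℝ) else 0)
            (fun z _ => by split_ifs <;> norm_num) hz
      have h4 : Real.exp (-En β γ (loc w)) ≤ 1 := by
        rw [Real.exp_le_one_iff, neg_nonpos]
        exact En_nonneg hd hγ0 hγβ (fs_loc w)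
      have h5 := Real.exp_pos (-(c * n))
      linarith
  calc ∑ w ∈ (allw d n).filter (fun w => ε * n ≤ ((vis 0 w).card : ℝ)),
        Real.exp (-En β γ (loc w)) ≤
      ∑ w ∈ (allw d n).filter (fun w => ε * n ≤ ((vis 0 w).card : ℝ)), (Real.exp (-(c * n)) +
        ∑ z ∈ ({0, 1, 2} : Finset ℤ), if w ∈ GG i₀ z n D a then (1 : ℝ) else 0) :=
        Finset.sum_le_sum key
    _ ≤ ∑ w ∈ allw d n, (Real.exp (-(c * n)) +
        ∑ z ∈ ({0, 1, 2} : Finset ℤ), if w ∈ GG i₀ z n D a then (1 : ℝ) else 0) := by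
      refine Finset.sum_le_sum_of_subset_of_nonneg (Finset.filter_subset _ _) fun w _ _ => ?_
      have : 0 ≤ ∑ z ∈ ({0, 1, 2} : Finset ℤ), if w ∈ GG i₀ z n D a then (1 : ℝ) else 0 :=
        Finset.sum_nonneg fun z _ => by split_ifs <;> norm_num
      have h5 := Real.exp_pos (-(c * n))
      linarith
    _ = (2 * d) ^ n * Real.exp (-(c * n)) +
        ∑ z ∈ ({0, 1, 2} : Finset ℤ), ((GG i₀ z n D a).card : ℝ) := by
      rw [Finset.sum_add_distrib, Finset.sum_const, card_allw, nsmul_eq_mul, Finset.sum_comm]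
      push_cast
      congr 1
      refine Finset.sum_congr rfl fun z _ => ?_
      rw [← Finset.sum_filter, Finset.sum_const, nsmul_eq_mul, mul_one]
      congr 2
      rw [GG]
      ext w
      simp only [Finset.mem_filter]
      tauto
    _ ≤ (2 * d) ^ n * Real.exp (-(c * n)) +
        ∑ _z ∈ ({0, 1, 2} : Finset ℤ), (2 * (d : ℝ)) ^ n * (n + 2) * Real.exp (-(c * n)) := by
      gcongr with z _
      exact hGG z
    _ = _ := by
      rw [Finset.sum_const]
      have e3 : ({0, 1, 2} : Finset ℤ).card = 3 := rfl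
      rw [e3, nsmul_eq_mul]
      push_cast
      ring

theorem filter_sum {n : ℕ} (β γ : ℝ) (A : (Fin n → Step d) → Prop) (A' : List (Step d) → Prop)
    [DecidablePred A'] (h : ∀ s, A s ↔ A' (List.ofFn s)) :
    prob d β γ n A = (∑ w ∈ (allw d n).filter A', Real.exp (-En β γ (loc w))) / Zw d β γ n := by
  classical
  rw [prob, partition_eq]
  congr 1
  rw [Finset.sum_filter, Finset.sum_filter,
    ← sum_words (n := n) fun w => if A' w then Real.exp (-En β γ (loc w)) else 0]
  refine Finset.sum_congr rfl fun s _ => ?_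
  rw [energy_eq]
  simp only [h]

theorem exists_small {c C : ℝ} (hc : 0 < c) (hC : 1 ≤ C) : ∃ N : ℕ, ∀ n : ℕ, N ≤ n →
    C * (n + 1) ≤ Real.exp (c * n) := by
  obtain ⟨N₁, hN₁⟩ := log_small (c := c / 2) (by positivity)
  obtain ⟨N₂, hN₂⟩ := exists_nat_ge (Real.log C / (c / 2))
  refine ⟨N₁ + N₂, fun n hn => ?_⟩
  have h1 := hN₁ n (by omega)
  have h2 : Real.log C ≤ c / 2 * n := by
    rw [div_le_iff₀ (by positivity)] at hN₂
    have : (N₂ : ℝ) ≤ n := by exact_mod_cast (show N₂ ≤ n by omega)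
    nlinarith
  have hn1 : (0 : ℝ) < (n : ℝ) + 1 := by positivity
  rw [← Real.exp_log (show (0 : ℝ) < C * (n + 1) by positivity),
    Real.log_mul (by positivity) (by positivity)]
  exact Real.exp_le_exp.mpr (by linarith)

theorem main (hd : 0 < d) {β ε : ℝ} (hβ : 0 < β) (hε : 0 < ε) :
    ∃ (γ₀ c : ℝ) (n₀ : ℕ), 0 < γ₀ ∧ γ₀ < β ∧ 0 < c ∧ ∀ γ, γ₀ ≤ γ → γ ≤ β → ∀ n, n₀ ≤ n →
      (2 * d) ^ n * Real.exp (-(ε * n)) ≤ partitionFunction d β γ n ∧
      partitionFunction d β γ n ≤ (2 * d) ^ n ∧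
      prob d β γ n (fun s => ε * n ≤ ((visited s).card : ℝ)) ≤ Real.exp (-(c * n)) ∧
      prob d β γ n (fun s => ε * n ≤ energy β γ s) ≤ Real.exp (-(c * n)) ∧
      meanSquare d β γ n ≤ ε ^ 2 * n ^ 2 := by
  classical
  have hd' : (0 : ℝ) < d := by exact_mod_cast hd
  obtain ⟨c₁, hc₁, hbad⟩ := bad_sum hd hβ (show 0 < ε / 2 by positivity)
  set ε' : ℝ := min (c₁ / 4) (ε / 2) with hε'
  have hε'0 : 0 < ε' := by positivity
  obtain ⟨γ₁, n₁, hγ₁, hγ₁β, hlow⟩ := Zw_lower hd hβ hε'0
  set c : ℝ := min (c₁ / 2) (ε / 2) with hc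
  have hc0 : 0 < c := by positivity
  obtain ⟨n₂, hn₂⟩ := exists_small (c := c₁ / 4) (C := 7) (by positivity) (by norm_num)
  obtain ⟨n₃, hn₃⟩ := exists_small (c := c) (C := 2 / ε ^ 2 + 1) hc0 (by
    have : 0 < 2 / ε ^ 2 := by positivity
    linarith)
  refine ⟨max γ₁ (β / 2), c, n₁ + n₂ + n₃, lt_max_of_lt_right (by positivity),
    max_lt hγ₁β (by linarith), hc0, fun γ hγ hγβ n hn => ?_⟩
  have hγ2 : β / 2 ≤ γ := (le_max_right _ _).trans hγ
  have hγ0 : 0 ≤ γ := by linarith
  have hn0 : (0 : ℝ) ≤ n := Nat.cast_nonneg _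
  have hZ := hlow γ ((le_max_left _ _).trans hγ) hγβ n (by omega)
  have hZ' : (2 * (d : ℝ)) ^ n * Real.exp (-(ε' * n)) ≤ Zw d β γ n := by
    refine le_trans (le_of_eq ?_) hZ
    rw [← Real.exp_log (show (0 : ℝ) < (2 * d) ^ n by positivity), Real.log_pow, ← Real.exp_add]
    congr 1; ring
  have hZ0 : 0 < Zw d β γ n := lt_of_lt_of_le (by positivity) hZ'
  have hEn0 : ∀ w : List (Step d), 0 ≤ En β γ (loc w) := fun w => En_nonneg hd hγ0 hγβ (fs_loc w)
  have hr1 : prob d β γ n (fun s => ε / 2 * n ≤ ((visited s).card : ℝ)) ≤ Real.exp (-(c * n)) := by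
    rw [filter_sum β γ _ (fun w => ε / 2 * n ≤ ((vis 0 w).card : ℝ)) (fun s => by
      rw [visited_eq]), div_le_iff₀ hZ0]
    refine (hbad γ hγ2 hγβ n).trans ?_
    have h1 : (3 * (n : ℝ) + 7) ≤ Real.exp (c₁ / 4 * n) := by
      have := hn₂ n (by omega)
      linarith
    calc (2 * (d : ℝ)) ^ n * (3 * n + 7) * Real.exp (-(c₁ * n)) ≤
        (2 * d) ^ n * Real.exp (c₁ / 4 * n) * Real.exp (-(c₁ * n)) := by gcongr
      _ = Real.exp (-(c₁ / 2 * n)) * ((2 * d) ^ n * Real.exp (-(c₁ / 4 * n))) := by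
        have : Real.exp (c₁ / 4 * n) * Real.exp (-(c₁ * n)) =
            Real.exp (-(c₁ / 2 * n)) * Real.exp (-(c₁ / 4 * n)) := by
          rw [← Real.exp_add, ← Real.exp_add]; congr 1; ring
        linear_combination (2 * (d : ℝ)) ^ n * this
      _ ≤ Real.exp (-(c * n)) * ((2 * d) ^ n * Real.exp (-(ε' * n))) := by
        gcongr
        · exact min_le_left _ _
        · exact min_le_left _ _
      _ ≤ _ := by gcongr
  have mono : ∀ A B : (Fin n → Step d) → Prop, (∀ s, A s → B s) →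
      prob d β γ n A ≤ prob d β γ n B := by
    intro A B hAB
    rw [prob, prob]
    have hp : 0 < partitionFunction d β γ n := by rw [partition_eq]; exact hZ0
    refine div_le_div_of_nonneg_right ?_ hp.le
    refine Finset.sum_le_sum_of_subset_of_nonneg ?_ fun s _ _ => (Real.exp_pos _).le
    intro s hs
    rw [Finset.mem_filter] at hs ⊢
    exact ⟨hs.1, hAB s hs.2⟩
  refine ⟨?_, ?_, ?_, ?_, ?_⟩
  · rw [partition_eq]
    refine le_trans ?_ hZ'
    gcongr
    exact (min_le_right _ _).trans (by linarith)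
  · rw [partition_eq, Zw]
    calc ∑ w ∈ allw d n, Real.exp (-En β γ (loc w)) ≤ ∑ _w ∈ allw d n, (1 : ℝ) := by
          refine Finset.sum_le_sum fun w _ => ?_
          rw [Real.exp_le_one_iff, neg_nonpos]
          exact hEn0 w
      _ = _ := by rw [Finset.sum_const, card_allw, nsmul_eq_mul, mul_one]; push_cast; rfl
  · refine (mono _ _ fun s hs => ?_).trans hr1
    have : ε / 2 * n ≤ ε * n := by
      have : ε / 2 ≤ ε := by linarith
      gcongr
    exact this.trans hs
  · rw [filter_sum β γ _ (fun w => ε * n ≤ En β γ (loc w)) (fun s => by rw [energy_eq]),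
      div_le_iff₀ hZ0]
    calc ∑ w ∈ (allw d n).filter (fun w => ε * n ≤ En β γ (loc w)), Real.exp (-En β γ (loc w)) ≤
        ∑ _w ∈ (allw d n).filter (fun w => ε * n ≤ En β γ (loc w)), Real.exp (-(ε * n)) := by
          refine Finset.sum_le_sum fun w hw => ?_
          exact Real.exp_le_exp.mpr (neg_le_neg (Finset.mem_filter.mp hw).2)
      _ ≤ (2 * d) ^ n * Real.exp (-(ε * n)) := by
        rw [Finset.sum_const, nsmul_eq_mul]
        have h1 : (((allw d n).filter fun w => ε * n ≤ En β γ (loc w)).card : ℝ) ≤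
            (2 * (d : ℝ)) ^ n := by
          have := Finset.card_le_card (Finset.filter_subset (fun w => ε * n ≤ En β γ (loc w))
            (allw d n))
          rw [card_allw] at this
          exact_mod_cast this
        gcongr
      _ = Real.exp (-(ε / 2 * n)) * ((2 * d) ^ n * Real.exp (-(ε / 2 * n))) := by
        have : Real.exp (-(ε * n)) = Real.exp (-(ε / 2 * n)) * Real.exp (-(ε / 2 * n)) := by
          rw [← Real.exp_add]; congr 1; ring
        rw [this]; ring
      _ ≤ Real.exp (-(c * n)) * ((2 * d) ^ n * Real.exp (-(ε' * n))) := by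
        gcongr
        · exact min_le_right _ _
        · exact min_le_right _ _
      _ ≤ _ := by gcongr
  · -- the mean square distance
    have hp : 0 < partitionFunction d β γ n := by rw [partition_eq]; exact hZ0
    rw [meanSquare, div_le_iff₀ hp]
    have hpt : ∀ s : Fin n → Step d, (∑ i, (pos s n i : ℝ) ^ 2) * Real.exp (-energy β γ s) ≤
        ε ^ 2 / 4 * n ^ 2 * Real.exp (-energy β γ s) +
          n ^ 2 * (if ε / 2 * n ≤ ((visited s).card : ℝ) then Real.exp (-energy β γ s) else 0) := by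
      intro s
      have e1 := sq_le_norm1 (pos s n)
      have e2 := norm1_lt_card (List.ofFn s)
      rw [← pos_end, ← visited_eq] at e2
      have e3 : (norm1 (pos s n) : ℝ) ≤ (visited s).card := by exact_mod_cast (by omega)
      have e4 := card_vis_le 0 (List.ofFn s)
      rw [List.length_ofFn, ← visited_eq] at e4
      have e5 : (norm1 (pos s n) : ℝ) ≤ n := by
        have : norm1 (pos s n) ≤ n := by omega
        exact_mod_cast this
      have e6 := Real.exp_pos (-energy β γ s)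
      split_ifs with h
      · have e7 : (norm1 (pos s n) : ℝ) ^ 2 ≤ n ^ 2 := by gcongr
        have e8 : (0 : ℝ) ≤ ε ^ 2 / 4 * n ^ 2 * Real.exp (-energy β γ s) := by positivity
        have e9 := mul_le_mul_of_nonneg_right (e1.trans e7) e6.le
        linarith
      · push Not at h
        have e7 : (norm1 (pos s n) : ℝ) ^ 2 ≤ (ε / 2 * n) ^ 2 := by
          gcongr; linarith
        have e9 := mul_le_mul_of_nonneg_right (e1.trans e7) e6.le
        rw [mul_zero, add_zero]
        calc _ ≤ _ := e9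
          _ = _ := by ring
    calc ∑ s : Fin n → Step d, (∑ i, (pos s n i : ℝ) ^ 2) * Real.exp (-energy β γ s) ≤
        ∑ s : Fin n → Step d, (ε ^ 2 / 4 * n ^ 2 * Real.exp (-energy β γ s) +
          n ^ 2 * (if ε / 2 * n ≤ ((visited s).card : ℝ) then Real.exp (-energy β γ s) else 0)) :=
          Finset.sum_le_sum fun s _ => hpt s
      _ = ε ^ 2 / 4 * n ^ 2 * partitionFunction d β γ n +
          n ^ 2 * (prob d β γ n (fun s => ε / 2 * n ≤ ((visited s).card : ℝ)) *
            partitionFunction d β γ n) := by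
        rw [Finset.sum_add_distrib, ← Finset.mul_sum, ← Finset.mul_sum, prob,
          div_mul_cancel₀ _ hp.ne', Finset.sum_filter, partitionFunction]
      _ ≤ ε ^ 2 / 4 * n ^ 2 * partitionFunction d β γ n +
          n ^ 2 * (ε ^ 2 / 2 * partitionFunction d β γ n) := by
        gcongr
        refine hr1.trans ?_
        have h1 := hn₃ n (by omega)
        have h2 : 2 / ε ^ 2 ≤ Real.exp (c * n) := by
          have e1 : 0 < 2 / ε ^ 2 := by positivity
          nlinarith [mul_nonneg e1.le hn0]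
        rw [div_le_iff₀ (by positivity)] at h2
        rw [Real.exp_neg, inv_le_comm₀ (Real.exp_pos _) (by positivity), inv_div,
          div_le_iff₀ (by positivity)]
        linarith
      _ ≤ ε ^ 2 * n ^ 2 * partitionFunction d β γ n := by
        have : 0 ≤ ε ^ 2 * n ^ 2 * partitionFunction d β γ n := by positivity
        linarith

end Pool.Agent.DCOL
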