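import Pool.Agent.Lib.DCOL.Lower

/-!
Insertion of spikes: words with many visited sites have few flat edges or are rare.
-/

set_option autoImplicit false

namespace Pool.Agent.DCOL

open Finset

variable {d : ℕ}

/-- The visited sites of the path that starts at `p`. -/
def vis : Site d → List (Step d) → Finset (Site d)
  | p, [] => {p}
  | p, s :: w => insert p (vis (p + vec s) w)

/-- Insert the spike `e, -e` at the first visit of each site of `X`. -/
def ins (e : Step d) : Finset (Site d) → Site d → List (Step d) → List (Step d)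
  | X, p, [] => if p ∈ X then [e, opp e] else []
  | X, p, s :: w => if p ∈ X then e :: opp e :: s :: ins e (X.erase p) (p + vec s) w
      else s :: ins e X (p + vec s) w

theorem mem_vis_self (p : Site d) (w : List (Step d)) : p ∈ vis p w := by
  cases w <;> simp [vis]

theorem card_vis_le (p : Site d) (w : List (Step d)) : (vis p w).card ≤ w.length + 1 := by
  induction w generalizing p with
  | nil => simp [vis]
  | cons s w ih =>
    rw [vis, List.length_cons]
    exact (Finset.card_insert_le _ _).trans (Nat.succ_le_succ (ih _))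

theorem length_ins (e : Step d) (w : List (Step d)) : ∀ (X : Finset (Site d)) (p : Site d),
    X ⊆ vis p w → (ins e X p w).length = w.length + 2 * X.card := by
  induction w with
  | nil =>
    intro X p hX
    rw [vis] at hX
    rw [ins]
    by_cases hp : p ∈ X
    · have : X = {p} := Finset.Subset.antisymm hX (by simpa using hp)
      rw [if_pos hp, this]; simp
    · have : X = ∅ := by
        rw [Finset.eq_empty_iff_forall_notMem]
        intro x hx
        exact hp (by rwa [Finset.mem_singleton.mp (hX hx)] at hx)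
      rw [if_neg hp, this]; simp
  | cons s w ih =>
    intro X p hX
    rw [vis] at hX
    rw [ins]
    by_cases hp : p ∈ X
    · have h1 : X.erase p ⊆ vis (p + vec s) w := fun x hx => by
        rw [Finset.mem_erase] at hx
        exact (Finset.mem_insert.mp (hX hx.2)).resolve_left hx.1
      have h2 := Finset.card_erase_add_one hp
      rw [if_pos hp]
      simp only [List.length_cons]
      rw [ih _ _ h1]
      omega
    · have h1 : X ⊆ vis (p + vec s) w := fun x hx =>
        (Finset.mem_insert.mp (hX hx)).resolve_left fun h => hp (h ▸ hx)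
      rw [if_neg hp]
      simp only [List.length_cons]
      rw [ih _ _ h1]
      omega

theorem lt_ins (e : Step d) (w : List (Step d)) : ∀ (X : Finset (Site d)) (p : Site d),
    X ⊆ vis p w → ∀ y, lt (ins e X p w) (y - p) =
      lt w (y - p) + ((if y ∈ X then 1 else 0) + (if y - vec e ∈ X then 1 else 0)) := by
  have hs : ∀ (p y : Site d), (y - p = vec e) ↔ (y - vec e = p) := fun p y => by
    rw [sub_eq_iff_eq_add, sub_eq_iff_eq_add, add_comm]
  have hs' : ∀ (p y : Site d), (y - p - vec e = vec (opp e)) ↔ (y = p) := fun p y => by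
    rw [vec_opp, sub_eq_iff_eq_add, neg_add_cancel, sub_eq_zero]
  induction w with
  | nil =>
    intro X p hX y
    rw [vis] at hX
    rw [ins]
    by_cases hp : p ∈ X
    · have : X = {p} := Finset.Subset.antisymm hX (by simpa using hp)
      rw [if_pos hp, this, lt_cons, lt_cons, lt_nil, lt_nil]
      simp only [hs, hs', Finset.mem_singleton]
      ring
    · have : X = ∅ := by
        rw [Finset.eq_empty_iff_forall_notMem]
        intro x hx
        exact hp (by rwa [Finset.mem_singleton.mp (hX hx)] at hx)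
      rw [if_neg hp, this]; simp
  | cons s w ih =>
    intro X p hX y
    rw [vis] at hX
    rw [ins]
    by_cases hp : p ∈ X
    · have h1 : X.erase p ⊆ vis (p + vec s) w := fun x hx => by
        rw [Finset.mem_erase] at hx
        exact (Finset.mem_insert.mp (hX hx.2)).resolve_left hx.1
      rw [if_pos hp, lt_cons, lt_cons, lt_cons, lt_cons]
      have h2 : y - p - vec e - vec (opp e) = y - p := by rw [vec_opp]; abel
      rw [h2, sub_sub y p (vec s), ih _ _ h1]
      simp only [hs, hs']
      have h3 : (if y ∈ X then 1 else 0) = (if y = p then 1 else 0) +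
          (if y ∈ X.erase p then 1 else 0) := by
        by_cases h : y = p
        · subst h; simp [hp]
        · simp [h]
      have h4 : (if y - vec e ∈ X then 1 else 0) = (if y - vec e = p then 1 else 0) +
          (if y - vec e ∈ X.erase p then 1 else 0) := by
        by_cases h : y - vec e = p
        · rw [h]; simp [hp]
        · simp [h]
      rw [h3, h4]
      ring
    · have h1 : X ⊆ vis (p + vec s) w := fun x hx =>
        (Finset.mem_insert.mp (hX hx)).resolve_left fun h => hp (h ▸ hx)
      rw [if_neg hp, lt_cons, lt_cons, sub_sub y p (vec s), ih _ _ h1]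
      ring

theorem ins_inj (e : Step d) : ∀ (w w' : List (Step d)) (X : Finset (Site d)) (p : Site d),
    ins e X p w = ins e X p w' → w = w'
  | [], [], _, _, _ => rfl
  | [], s' :: w', X, p, h => by
    exfalso
    rw [ins, ins] at h
    split_ifs at h <;> simp at h
  | s :: w, [], X, p, h => by
    exfalso
    rw [ins, ins] at h
    split_ifs at h <;> simp at h
  | s :: w, s' :: w', X, p, h => by
    rw [ins, ins] at h
    by_cases hp : p ∈ X
    · rw [if_pos hp, if_pos hp] at h
      simp only [List.cons.injEq, true_and] at h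
      obtain ⟨h1, h2⟩ := h
      subst h1
      rw [ins_inj e w w' _ _ h2]
    · rw [if_neg hp, if_neg hp] at h
      simp only [List.cons.injEq] at h
      obtain ⟨h1, h2⟩ := h
      subst h1
      rw [ins_inj e w w' _ _ h2]

/-- The local time of a word, the time `0` included. -/
def locN (w : List (Step d)) (x : Site d) : ℕ := (if x = 0 then 1 else 0) + lt w x

theorem mem_vis_iff (w : List (Step d)) : ∀ (p y : Site d),
    y ∈ vis p w ↔ y = p ∨ lt w (y - p) ≠ 0 := by
  induction w with
  | nil => intro p y; simp [vis]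
  | cons s w ih =>
    intro p y
    rw [vis, Finset.mem_insert, ih, lt_cons, sub_sub]
    have : (y - p = vec s) ↔ (y = p + vec s) := by
      rw [sub_eq_iff_eq_add, add_comm]
    simp only [this]
    by_cases h : y = p + vec s
    · simp [h]
    · simp [h]

theorem mem_vis0 (w : List (Step d)) (y : Site d) : y ∈ vis 0 w ↔ locN w y ≠ 0 := by
  rw [mem_vis_iff, sub_zero, locN]
  by_cases h : y = 0
  · simp [h]
  · simp [h]

variable (i₀ : Fin d)

/-- The sites `x` of the class `c` such that the edge from `x + e` to `x + 2 e` is not flat. -/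
def Nf (c : ℤ) (w : List (Step d)) : Finset (Site d) :=
  ((vis 0 w).image (fun y => y - vec (i₀, true)) ∪
    (vis 0 w).image (fun y => y - vec (i₀, true) - vec (i₀, true))).filter
    fun x => x i₀ % 3 = c ∧ locN w (x + vec (i₀, true)) ≠
      locN w (x + vec (i₀, true) + vec (i₀, true))

theorem mem_Nf {c : ℤ} {w : List (Step d)} {x : Site d} : x ∈ Nf i₀ c w ↔
    x i₀ % 3 = c ∧ locN w (x + vec (i₀, true)) ≠ locN w (x + vec (i₀, true) + vec (i₀, true)) := by
  rw [Nf, Finset.mem_filter, and_iff_right_iff_imp]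
  rintro ⟨-, h⟩
  rw [Finset.mem_union, Finset.mem_image, Finset.mem_image]
  by_cases h1 : locN w (x + vec (i₀, true)) = 0
  · right
    refine ⟨x + vec (i₀, true) + vec (i₀, true), ?_, by abel⟩
    rw [mem_vis0]
    rw [h1] at h
    exact h.symm
  · left
    exact ⟨x + vec (i₀, true), (mem_vis0 _ _).mpr h1, by abel⟩

/-- The visited sites of the class `c` with a flat edge. -/
def Gd (c : ℤ) (w : List (Step d)) : Finset (Site d) :=
  ((vis 0 w).filter fun x => x i₀ % 3 = c) \ Nf i₀ c w

theorem locN_ins {X : Finset (Site d)} {w : List (Step d)} (hX : X ⊆ vis 0 w) (e : Step d)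
    (y : Site d) : locN (ins e X 0 w) y =
      locN w y + ((if y ∈ X then 1 else 0) + (if y - vec e ∈ X then 1 else 0)) := by
  have h := lt_ins e w X 0 hX y
  rw [sub_zero] at h
  rw [locN, locN, h]
  ring

theorem ins_Nf {c : ℤ} {X : Finset (Site d)} {w : List (Step d)} (hX : X ⊆ Gd i₀ c w) :
    X ⊆ Nf i₀ c (ins (i₀, true) X 0 w) ∧
      Nf i₀ c (ins (i₀, true) X 0 w) ⊆ Nf i₀ c w ∪ X := by
  set e : Step d := (i₀, true) with he
  have hXv : X ⊆ vis 0 w := fun x hx =>
    (Finset.mem_filter.mp (Finset.mem_sdiff.mp (hX hx)).1).1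
  have hXc : ∀ x ∈ X, x i₀ % 3 = c := fun x hx =>
    (Finset.mem_filter.mp (Finset.mem_sdiff.mp (hX hx)).1).2
  have hXn : ∀ x ∈ X, x ∉ Nf i₀ c w := fun x hx => (Finset.mem_sdiff.mp (hX hx)).2
  have hv : (vec e : Site d) i₀ = 1 := by rw [he, vec_true, if_pos rfl]
  have key : ∀ x : Site d, x i₀ % 3 = c →
      locN (ins e X 0 w) (x + vec e) = locN w (x + vec e) + (if x ∈ X then 1 else 0) ∧
      locN (ins e X 0 w) (x + vec e + vec e) = locN w (x + vec e + vec e) := by
    intro x hx
    have h1 : x + vec e ∉ X := fun h => by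
      have := hXc _ h
      rw [Pi.add_apply, hv] at this
      omega
    have h2 : x + vec e + vec e ∉ X := fun h => by
      have := hXc _ h
      rw [Pi.add_apply, Pi.add_apply, hv] at this
      omega
    rw [locN_ins hXv, locN_ins hXv, if_neg h1, if_neg h2, add_sub_cancel_right,
      add_sub_cancel_right, if_neg h1]
    simp
  constructor
  · intro x hx
    obtain ⟨k1, k2⟩ := key x (hXc x hx)
    rw [mem_Nf]
    refine ⟨hXc x hx, ?_⟩
    rw [← he, k1, k2, if_pos hx]
    have h3 := hXn x hx
    rw [mem_Nf, not_and, not_not] at h3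
    rw [← he] at h3
    rw [h3 (hXc x hx)]
    omega
  · intro x hx
    rw [mem_Nf, ← he] at hx
    rw [Finset.mem_union]
    by_cases h : x ∈ X
    · exact Or.inr h
    · left
      obtain ⟨k1, k2⟩ := key x hx.1
      rw [k1, k2, if_neg h, add_zero] at hx
      rw [mem_Nf, ← he]
      exact hx

/-- The words with at most `D` non flat edges and at least `a` good sites of the class `c`. -/
def GG (c : ℤ) (n D a : ℕ) : Finset (List (Step d)) :=
  (allw d n).filter fun w => (Nf i₀ c w).card ≤ D ∧ a ≤ (Gd i₀ c w).card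

theorem card_pairs (c : ℤ) (n D a k : ℕ) :
    ∑ w ∈ GG i₀ c n D a, (Gd i₀ c w).card.choose k ≤ (2 * d) ^ (n + 2 * k) * 2 ^ (D + k) := by
  classical
  have h1 : ∑ w ∈ GG i₀ c n D a, (Gd i₀ c w).card.choose k =
      ((GG i₀ c n D a).sigma fun w => (Gd i₀ c w).powersetCard k).card := by
    rw [Finset.card_sigma]
    exact Finset.sum_congr rfl fun w _ => (Finset.card_powersetCard _ _).symm
  have h2 : (((allw d (n + 2 * k)).filter fun w => (Nf i₀ c w).card ≤ D + k).sigma
      fun w => (Nf i₀ c w).powerset).card ≤ (2 * d) ^ (n + 2 * k) * 2 ^ (D + k) := by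
    rw [Finset.card_sigma]
    calc ∑ w ∈ (allw d (n + 2 * k)).filter fun w => (Nf i₀ c w).card ≤ D + k,
          (Nf i₀ c w).powerset.card ≤
        ∑ w ∈ (allw d (n + 2 * k)).filter fun w => (Nf i₀ c w).card ≤ D + k, 2 ^ (D + k) := by
          refine Finset.sum_le_sum fun w hw => ?_
          rw [Finset.card_powerset]
          exact Nat.pow_le_pow_right (by norm_num) (Finset.mem_filter.mp hw).2
      _ ≤ _ := by
        rw [Finset.sum_const, smul_eq_mul, ← card_allw]
        exact Nat.mul_le_mul_right _ (Finset.card_le_card (Finset.filter_subset _ _))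
  rw [h1]
  refine le_trans ?_ h2
  refine Finset.card_le_card_of_injOn
    (fun x => (⟨ins (i₀, true) x.2 0 x.1, x.2⟩ : (_ : List (Step d)) × Finset (Site d))) ?_ ?_
  · rintro ⟨w, X⟩ hx
    rw [Finset.mem_coe, Finset.mem_sigma, Finset.mem_powersetCard] at hx
    obtain ⟨hw, hX, hXk⟩ := hx
    dsimp only at hw hX hXk
    rw [GG, Finset.mem_filter, mem_allw] at hw
    obtain ⟨hwn, hwD, -⟩ := hw
    obtain ⟨i1, i2⟩ := ins_Nf i₀ hX
    have hXv : X ⊆ vis 0 w := fun x hx =>
      (Finset.mem_filter.mp (Finset.mem_sdiff.mp (hX hx)).1).1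
    rw [Finset.mem_coe, Finset.mem_sigma, Finset.mem_filter, mem_allw, Finset.mem_powerset]
    refine ⟨⟨?_, ?_⟩, i1⟩
    · dsimp only
      rw [length_ins _ _ _ _ hXv, hwn, hXk]
    · calc (Nf i₀ c (ins (i₀, true) X 0 w)).card ≤ (Nf i₀ c w ∪ X).card := Finset.card_le_card i2
        _ ≤ (Nf i₀ c w).card + X.card := Finset.card_union_le _ _
        _ ≤ D + k := by omega
  · rintro ⟨w, X⟩ hx ⟨w', X'⟩ hx' he
    dsimp only at he
    rw [Sigma.mk.injEq] at he
    obtain ⟨h3, h4⟩ := he
    have h5 := eq_of_heq h4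
    subst h5
    rw [ins_inj _ _ _ _ _ h3]

theorem card_GG (hd : 0 < d) (c : ℤ) (n D a : ℕ) :
    ((GG i₀ c n D a).card : ℝ) * (1 + 1 / (8 * d ^ 2)) ^ a ≤ (2 * d) ^ n * 2 ^ D * (n + 2) := by
  have hd' : (0 : ℝ) < d := by exact_mod_cast hd
  set θ : ℝ := 1 / (8 * d ^ 2) with hθ
  have hθ0 : 0 < θ := by positivity
  calc ((GG i₀ c n D a).card : ℝ) * (1 + θ) ^ a = ∑ _w ∈ GG i₀ c n D a, (1 + θ) ^ a := by
        rw [Finset.sum_const, nsmul_eq_mul]
    _ ≤ ∑ w ∈ GG i₀ c n D a, ∑ k ∈ Finset.range (n + 2), θ ^ k * ((Gd i₀ c w).card.choose k : ℝ) := by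
      refine Finset.sum_le_sum fun w hw => ?_
      rw [GG, Finset.mem_filter, mem_allw] at hw
      calc (1 + θ) ^ a ≤ (1 + θ) ^ (Gd i₀ c w).card :=
            pow_le_pow_right₀ (by linarith) hw.2.2
        _ = ∑ k ∈ Finset.range ((Gd i₀ c w).card + 1), θ ^ k * ((Gd i₀ c w).card.choose k : ℝ) := by
          rw [add_comm 1 θ, add_pow]
          refine Finset.sum_congr rfl fun k _ => ?_
          rw [one_pow, mul_one]
        _ ≤ _ := by
          refine Finset.sum_le_sum_of_subset_of_nonneg ?_ fun k _ _ => by positivity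
          refine Finset.range_subset_range.mpr ?_
          have h1 : (Gd i₀ c w).card ≤ (vis 0 w).card :=
            Finset.card_le_card (Finset.sdiff_subset.trans (Finset.filter_subset _ _))
          have h2 := card_vis_le 0 w
          rw [hw.1] at h2
          omega
    _ = ∑ k ∈ Finset.range (n + 2), θ ^ k * ((∑ w ∈ GG i₀ c n D a, (Gd i₀ c w).card.choose k : ℕ) : ℝ) := by
      rw [Finset.sum_comm]
      refine Finset.sum_congr rfl fun k _ => ?_
      push_cast
      rw [Finset.mul_sum]
    _ ≤ ∑ k ∈ Finset.range (n + 2), θ ^ k * (((2 * d) ^ (n + 2 * k) * 2 ^ (D + k) : ℕ) : ℝ) := by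
      refine Finset.sum_le_sum fun k _ => mul_le_mul_of_nonneg_left ?_ (by positivity)
      exact_mod_cast card_pairs i₀ c n D a k
    _ = ∑ _k ∈ Finset.range (n + 2), ((2 * d : ℝ)) ^ n * 2 ^ D := by
      refine Finset.sum_congr rfl fun k _ => ?_
      push_cast
      rw [pow_add, pow_add, pow_mul]
      have h1 : θ ^ k * ((2 * (d : ℝ)) ^ 2) ^ k * 2 ^ k = 1 := by
        rw [← mul_pow, ← mul_pow, hθ]
        have : 1 / (8 * (d : ℝ) ^ 2) * (2 * d) ^ 2 * 2 = 1 := by field_simp; ring
        rw [this, one_pow]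
      calc θ ^ k * ((2 * (d : ℝ)) ^ n * ((2 * d) ^ 2) ^ k * (2 ^ D * 2 ^ k)) =
          (θ ^ k * ((2 * (d : ℝ)) ^ 2) ^ k * 2 ^ k) * ((2 * d) ^ n * 2 ^ D) := by ring
        _ = _ := by rw [h1, one_mul]
    _ = _ := by
      rw [Finset.sum_const, Finset.card_range, nsmul_eq_mul]
      push_cast
      ring

end Pool.Agent.DCOL
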