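import Pool.Agent.Lib.DCOL.Words

/-!
Many closed words of one length with the same visit count: at an exponential rate close to `2 d`.
-/

set_option autoImplicit false

namespace Pool.Agent.DCOL

open Finset

variable {d : ℕ}

/-- All words of length `L`. -/
def allw (d L : ℕ) : Finset (List (Step d)) :=
  (univ : Finset (Fin L → Step d)).map ⟨List.ofFn, List.ofFn_injective⟩

theorem mem_allw {L : ℕ} {w : List (Step d)} : w ∈ allw d L ↔ w.length = L := by
  constructor
  · intro h
    obtain ⟨f, -, rfl⟩ := Finset.mem_map.mp h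
    exact List.length_ofFn
  · rintro rfl
    exact Finset.mem_map.mpr ⟨w.get, Finset.mem_univ _, List.ofFn_get w⟩

theorem card_allw (d L : ℕ) : (allw d L).card = (2 * d) ^ L := by
  rw [allw, Finset.card_map, Finset.card_univ, Fintype.card_fun, Fintype.card_prod,
    Fintype.card_fin, Fintype.card_fin, Fintype.card_bool, mul_comm]

theorem pigeon {α β : Type*} [DecidableEq β] (s : Finset α) (t : Finset β) (f : α → β)
    (hf : ∀ a ∈ s, f a ∈ t) (hs : s.Nonempty) :
    ∃ b ∈ t, s.card ≤ (s.filter fun a => f a = b).card * t.card := by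
  obtain ⟨a, ha⟩ := hs
  obtain ⟨b, hb, hmax⟩ := Finset.exists_max_image t (fun b => (s.filter fun a => f a = b).card)
    ⟨f a, hf a ha⟩
  exact ⟨b, hb, Finset.card_le_mul_card_image_of_maps_to hf _ hmax⟩

theorem abs_vec (s : Step d) (i : Fin d) : |vec s i| ≤ 1 := by
  rcases s with ⟨j, b⟩
  by_cases h : i = j
  · subst h
    cases b <;> simp [vec]
  · cases b <;> simp [vec, h]

theorem abs_endp (w : List (Step d)) (i : Fin d) : |endp w i| ≤ w.length := by
  induction w with
  | nil => simp
  | cons s w ih =>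
    rw [endp_cons, Pi.add_apply, List.length_cons]
    have := abs_add_le (vec s i) (endp w i)
    have := abs_vec s i
    push_cast
    linarith

/-- Pairs of words with a common end point give closed words. -/
theorem exists_loops (hd : 0 < d) (L : ℕ) : ∃ O : Finset (List (Step d)),
    (∀ w ∈ O, w.length = 2 * L) ∧ (∀ w ∈ O, endp w = 0) ∧
      ((2 * d) ^ L) ^ 2 ≤ O.card * ((2 * L + 1) ^ d) ^ 2 := by
  classical
  have hne : (allw d L).Nonempty := by
    rw [← Finset.card_pos, card_allw]; positivity
  obtain ⟨a, -, ha⟩ := pigeon (allw d L) (Fintype.piFinset fun _ : Fin d => Finset.Icc (-(L : ℤ)) L)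
    endp (fun w hw => by
      rw [Fintype.mem_piFinset]
      intro i
      have := abs_endp w i
      rw [mem_allw.mp hw, abs_le] at this
      exact Finset.mem_Icc.mpr this) hne
  rw [Fintype.card_piFinset, Finset.prod_const, Finset.card_univ, Fintype.card_fin, Int.card_Icc,
    card_allw] at ha
  have h1 : ((L : ℤ) + 1 - -(L : ℤ)).toNat = 2 * L + 1 := by omega
  rw [h1] at ha
  set U := (allw d L).filter fun w => endp w = a with hU
  have hUl : ∀ w ∈ U, w.length = L := fun w hw => mem_allw.mp (Finset.mem_filter.mp hw).1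
  have hUe : ∀ w ∈ U, endp w = a := fun w hw => (Finset.mem_filter.mp hw).2
  refine ⟨(U ×ˢ U).image fun x => x.1 ++ x.2.map opp, ?_, ?_, ?_⟩
  · intro w hw
    obtain ⟨x, hx, rfl⟩ := Finset.mem_image.mp hw
    rw [Finset.mem_product] at hx
    rw [List.length_append, List.length_map, hUl _ hx.1, hUl _ hx.2]; ring
  · intro w hw
    obtain ⟨x, hx, rfl⟩ := Finset.mem_image.mp hw
    rw [Finset.mem_product] at hx
    rw [endp_append, endp_opp, hUe _ hx.1, hUe _ hx.2]; simp
  · rw [Finset.card_image_of_injOn, Finset.card_product]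
    · calc ((2 * d) ^ L) ^ 2 ≤ (U.card * (2 * L + 1) ^ d) ^ 2 := Nat.pow_le_pow_left ha 2
        _ = _ := by ring
    · rintro ⟨u, v⟩ hu ⟨u', v'⟩ hu' he
      rw [Finset.mem_coe, Finset.mem_product] at hu hu'
      have h2 := List.append_inj he (by rw [hUl _ hu.1, hUl _ hu'.1])
      have h3 : Function.Injective (opp : Step d → Step d) := by
        intro s t h
        rcases s with ⟨i, b⟩
        rcases t with ⟨j, c⟩
        simpa [opp] using h
      exact Prod.ext h2.1 (List.map_injective_iff.mpr h3 h2.2)

theorem endp_flatten (l : List (List (Step d))) (h : ∀ o ∈ l, endp o = 0) : endp l.flatten = 0 := by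
  induction l with
  | nil => rfl
  | cons o l ih =>
    rw [List.flatten_cons, endp_append, h o (by simp), ih fun o' h' => h o' (by simp [h']), add_zero]

theorem lt_flatten (l : List (List (Step d))) (h : ∀ o ∈ l, endp o = 0) (x : Site d) :
    lt l.flatten x = (l.map fun o => lt o x).sum := by
  induction l with
  | nil => rfl
  | cons o l ih =>
    rw [List.flatten_cons, lt_append, h o (by simp), sub_zero, ih fun o' h' => h o' (by simp [h']),
      List.map_cons, List.sum_cons]

theorem length_flatten' (l : List (List (Step d))) (m : ℕ) (h : ∀ o ∈ l, o.length = m) :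
    l.flatten.length = l.length * m := by
  induction l with
  | nil => simp
  | cons o l ih =>
    rw [List.flatten_cons, List.length_append, h o (by simp), ih fun o' h' => h o' (by simp [h']),
      List.length_cons]
    ring

theorem flatten_inj {m : ℕ} : ∀ {l l' : List (List (Step d))}, (∀ o ∈ l, o.length = m) →
    (∀ o ∈ l', o.length = m) → l.length = l'.length → l.flatten = l'.flatten → l = l'
  | [], [], _, _, _, _ => rfl
  | [], _ :: _, _, _, h, _ => by simp at h
  | _ :: _, [], _, _, h, _ => by simp at h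
  | o :: l, o' :: l', h, h', hl, he => by
    rw [List.flatten_cons, List.flatten_cons] at he
    have h1 := List.append_inj he (by rw [h o (by simp), h' o' (by simp)])
    rw [h1.1, flatten_inj (fun x hx => h x (by simp [hx])) (fun x hx => h' x (by simp [hx]))
      (by simpa using hl) h1.2]

/-- Concatenations of `k` loops with the same type. -/
theorem exists_type (O : Finset (List (Step d))) (L : ℕ) (hl : ∀ w ∈ O, w.length = L)
    (hc : ∀ w ∈ O, endp w = 0) (hO : O.Nonempty) (k : ℕ) :
    ∃ (W : Finset (List (Step d))) (G : Site d → ℕ), Fam W (k * L) G ∧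
      O.card ^ k ≤ W.card * (k + 1) ^ O.card := by
  classical
  set S : Finset (Fin k → List (Step d)) := Fintype.piFinset fun _ => O with hS
  have hSn : S.Nonempty := by
    rw [hS, Fintype.piFinset_nonempty]
    exact fun _ => hO
  obtain ⟨τ, -, hτ⟩ := pigeon S (Fintype.piFinset fun _ : {x // x ∈ O} => Finset.range (k + 1))
    (fun g o => (univ.filter fun i => g i = o.1).card) (fun g _ => by
      rw [Fintype.mem_piFinset]
      intro o
      rw [Finset.mem_range, Nat.lt_succ_iff]
      exact (Finset.card_le_univ _).trans (by rw [Fintype.card_fin])) hSn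
  have hcS : S.card = O.card ^ k := by
    rw [hS, Fintype.card_piFinset, Finset.prod_const, Finset.card_univ, Fintype.card_fin]
  have hcT : (Fintype.piFinset fun _ : {x // x ∈ O} => Finset.range (k + 1)).card
      = (k + 1) ^ O.card := by
    rw [Fintype.card_piFinset, Finset.prod_const, Finset.card_univ, Fintype.card_coe,
      Finset.card_range]
  rw [hcS, hcT] at hτ
  set T := S.filter fun g => (fun o : {x // x ∈ O} => (univ.filter fun i => g i = o.1).card) = τ
    with hT
  have hmem : ∀ g ∈ T, ∀ i, g i ∈ O := fun g hg i => by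
    have h1 := (Finset.mem_filter.mp hg).1
    rw [hS, Fintype.mem_piFinset] at h1
    exact h1 i
  have hmem' : ∀ g ∈ T, ∀ o ∈ List.ofFn g, o ∈ O := by
    intro g hg o ho
    obtain ⟨i, rfl⟩ := (List.mem_ofFn' g o).mp ho
    exact hmem g hg i
  have hlt : ∀ g ∈ T, ∀ x, lt (List.ofFn g).flatten x = ∑ o : {x // x ∈ O}, τ o * lt o.1 x := by
    intro g hg x
    rw [lt_flatten _ (fun o ho => hc o (hmem' g hg o ho)), ← List.ofFn_comp', List.sum_ofFn]
    have h2 : (fun o : {x // x ∈ O} => (univ.filter fun i => g i = o.1).card) = τ :=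
      (Finset.mem_filter.mp hg).2
    rw [← Finset.sum_fiberwise_of_maps_to (t := O) (g := g) (fun i _ => hmem g hg i),
      ← Finset.sum_coe_sort O]
    refine Finset.sum_congr rfl fun o _ => ?_
    rw [← h2, Finset.sum_congr rfl (g := fun _ => lt o.1 x), Finset.sum_const, smul_eq_mul]
    intro i hi
    simp only [Function.comp, (Finset.mem_filter.mp hi).2]
  refine ⟨T.image fun g => (List.ofFn g).flatten, fun x => ∑ o : {x // x ∈ O}, τ o * lt o.1 x,
    ⟨?_, ?_, ?_⟩, ?_⟩
  · intro w hw
    obtain ⟨g, hg, rfl⟩ := Finset.mem_image.mp hw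
    rw [length_flatten' _ L (fun o ho => hl o (hmem' g hg o ho)), List.length_ofFn]
  · intro w hw
    obtain ⟨g, hg, rfl⟩ := Finset.mem_image.mp hw
    exact endp_flatten _ fun o ho => hc o (hmem' g hg o ho)
  · intro w hw x
    obtain ⟨g, hg, rfl⟩ := Finset.mem_image.mp hw
    exact hlt g hg x
  · rw [Finset.card_image_of_injOn]
    · exact hτ
    · intro g hg g' hg' he
      exact List.ofFn_injective (flatten_inj (m := L) (fun o ho => hl o (hmem' g hg o ho))
        (fun o ho => hl o (hmem' g' hg' o ho)) (by simp) he)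

theorem log_small {c : ℝ} (hc : 0 < c) : ∃ N : ℕ, ∀ n : ℕ, N ≤ n → Real.log (n + 1) ≤ c * n := by
  have h1 := Real.isLittleO_log_id_atTop.bound (show 0 < c / 2 by positivity)
  obtain ⟨a, ha⟩ := Filter.eventually_atTop.mp h1
  obtain ⟨N, hN⟩ := exists_nat_ge a
  refine ⟨N + 1, fun n hn => ?_⟩
  have hn1 : (1 : ℝ) ≤ n := by
    have : 1 ≤ n := by omega
    exact_mod_cast this
  have h2 : a ≤ (n : ℝ) + 1 := by
    have : (N : ℝ) + 1 ≤ n := by exact_mod_cast hn
    linarith
  have h3 := ha _ h2
  rw [id, Real.norm_eq_abs, Real.norm_eq_abs, abs_of_nonneg (by linarith : (0 : ℝ) ≤ n + 1)] at h3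
  have h4 := le_abs_self (Real.log ((n : ℝ) + 1))
  nlinarith

/-- Closed words with the same visit count, at a rate close to `2 d`. -/
theorem exists_fam (hd : 0 < d) {ε : ℝ} (hε : 0 < ε) (M : ℕ) :
    ∃ (m : ℕ) (W : Finset (List (Step d))) (G : Site d → ℕ), M ≤ m ∧ 0 < m ∧ Fam W m G ∧
      W.Nonempty ∧ m * (Real.log (2 * d) - ε) ≤ Real.log W.card := by
  obtain ⟨N₁, hN₁⟩ := log_small (c := ε / (4 * d)) (by positivity)
  set L := N₁ + 1 with hL
  have hLp : (0 : ℝ) < L := by positivity
  have hL1 : (d : ℝ) * Real.log (2 * L + 1) ≤ ε / 2 * L := by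
    have h := hN₁ (2 * L) (by omega)
    push_cast at h
    calc (d : ℝ) * Real.log (2 * L + 1) ≤ d * (ε / (4 * d) * (2 * L)) := by gcongr
      _ = ε / 2 * L := by field_simp; ring
  obtain ⟨O, hl, hc, hO⟩ := exists_loops hd L
  have hOp : 0 < O.card := by
    by_contra h
    have h0 : O.card = 0 := by omega
    rw [h0, zero_mul] at hO
    have : 0 < ((2 * d) ^ L) ^ 2 := by positivity
    omega
  have hd0 : (0 : ℝ) < d := by exact_mod_cast hd
  have hlogO : 2 * L * (Real.log (2 * d) - ε / 2) ≤ Real.log O.card := by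
    have h1 : (((2 * d : ℝ)) ^ L) ^ 2 ≤ O.card * ((2 * L + 1 : ℝ) ^ d) ^ 2 := by
      exact_mod_cast hO
    have hOp' : (0 : ℝ) < O.card := by exact_mod_cast hOp
    have h2 := Real.log_le_log (by positivity) h1
    rw [Real.log_mul hOp'.ne' (by positivity), Real.log_pow, Real.log_pow, Real.log_pow,
      Real.log_pow] at h2
    push_cast at h2
    linarith
  obtain ⟨N₂, hN₂⟩ := log_small (c := ε * L / O.card) (by positivity)
  set k := N₂ + M + 1 with hk
  have hk1 : (O.card : ℝ) * Real.log (k + 1) ≤ ε * L * k := by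
    have h := hN₂ k (by omega)
    have hOp' : (0 : ℝ) < O.card := by exact_mod_cast hOp
    calc (O.card : ℝ) * Real.log (k + 1) ≤ O.card * (ε * L / O.card * k) := by gcongr
      _ = ε * L * k := by field_simp
  obtain ⟨W, G, hF, hW⟩ := exists_type O (2 * L) hl hc (Finset.card_pos.mp hOp) k
  have hWp : 0 < W.card := by
    by_contra h
    have h0 : W.card = 0 := by omega
    rw [h0, zero_mul] at hW
    have : 0 < O.card ^ k := by positivity
    omega
  refine ⟨k * (2 * L), W, G, ?_, ?_, hF, Finset.card_pos.mp hWp, ?_⟩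
  · nlinarith
  · positivity
  · have h1 : ((O.card : ℝ)) ^ k ≤ W.card * (k + 1 : ℝ) ^ O.card := by exact_mod_cast hW
    have hOp' : (0 : ℝ) < O.card := by exact_mod_cast hOp
    have hWp' : (0 : ℝ) < W.card := by exact_mod_cast hWp
    have h2 := Real.log_le_log (by positivity) h1
    rw [Real.log_mul hWp'.ne' (by positivity), Real.log_pow, Real.log_pow] at h2
    push_cast
    have h3 : (0 : ℝ) ≤ k := by positivity
    nlinarith [mul_le_mul_of_nonneg_left hlogO h3]

end Pool.Agent.DCOL
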