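import Pool.Agent.Lib.DCOL.Energy
import Pool.Agent.Lib.DCOL.Loops

/-!
The lower bound for the partition function near the critical line.
-/

set_option autoImplicit false

namespace Pool.Agent.DCOL

open Finset

variable {d : ℕ}

/-- The local time of a word, the time `0` included. -/
noncomputable def loc (w : List (Step d)) (x : Site d) : ℝ := (if x = 0 then 1 else 0) + lt w x

/-- The partition function. -/
noncomputable def Zw (d : ℕ) (β γ : ℝ) (n : ℕ) : ℝ := ∑ w ∈ allw d n, Real.exp (-En β γ (loc w))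

theorem lt_replicate (r : ℕ) (s : Step d) (x : Site d) :
    lt (List.replicate r s) x = lineU r s x := by
  induction r with
  | zero => simp [lineU]
  | succ r ih =>
    rw [List.replicate_succ', lt_append, ih, endp_replicate, lt_cons, lt_nil, add_zero, lineU, lineU,
      Finset.sum_range_succ]
    have : (x - r • vec s = vec s) ↔ (x = (r + 1) • vec s) := by
      rw [sub_eq_iff_eq_add, succ_nsmul']
    simp only [this]

theorem lineU_le_one (r : ℕ) (i : Fin d) (x : Site d) : lineU r (i, true) x ≤ 1 := by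
  refine sum_range_le_one r _ _ (fun i => by split_ifs <;> simp) fun t t' ht ht' => ?_
  have e1 : x = (t + 1) • vec (i, true) := by
    by_contra hh; exact ht (if_neg hh)
  have e2 : x = (t' + 1) • vec (i, true) := by
    by_contra hh; exact ht' (if_neg hh)
  have e3 := congrFun (e1.symm.trans e2) i
  simp only [Pi.smul_apply, vec_true, if_true, nsmul_eq_mul, mul_one] at e3
  push_cast at e3
  omega

theorem En_loc_le (hd : 0 < d) {β γ : ℝ} (hγ : 0 ≤ γ) (hβ : γ ≤ β) {W : Finset (List (Step d))}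
    {m : ℕ} {G : Site d → ℕ} (hW : Fam W m G) (hWn : W.Nonempty) {κ : Fin d → ℕ} {K : ℕ}
    (hK : 0 < K) (hκ : ∀ i, K ≤ κ i) {W' : Finset (List (Step d))} {m' : ℕ} {ρ : Site d → ℕ}
    (hD : Dat W m G κ d W' m' ρ) {w : List (Step d)} (hw : w ∈ W') (r : ℕ) :
    En β γ (loc (w ++ List.replicate r (⟨0, hd⟩, true))) ≤
      2 * ((β - γ) * (m ^ 2 * (bx κ d).card) + γ * m ^ 2 * (bx κ d).card / K) +
      2 * (β * ((2 * d + 2) * (1 + 2 * d * (bx κ d).card + r))) := by
  classical
  set V := (bx κ d).card with hV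
  have hκ1 : ∀ i, 1 ≤ κ i := fun i => le_trans hK (hκ i)
  obtain ⟨w₀, hw₀⟩ := hWn
  have hGs : (Function.support G).Finite := by
    have : G = lt w₀ := funext fun x => (hW.cnt w₀ hw₀ x).symm
    rw [this]; exact lt_support w₀
  have hGm : ∑' x, (G x : ℝ) = m := by
    have h1 := tsum_lt w₀
    rw [hW.len w₀ hw₀] at h1
    rw [← h1]
    exact tsum_congr fun x => by rw [hW.cnt w₀ hw₀]
  set u : Site d → ℝ := fun x => ∑ b ∈ bx κ d, (G (x - b) : ℝ) with hu
  have hus : (Function.support u).Finite := fs_trans hGs _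
  have hρs : (Function.support ρ).Finite := by
    refine (lt_support w).subset fun x hx => ?_
    rw [Function.mem_support, hD.fam.cnt w hw]
    rw [Function.mem_support] at hx
    omega
  have hρm : ∑' x, (ρ x : ℝ) = m' - m * V := by
    have h1 := tsum_lt w
    rw [hD.fam.len w hw] at h1
    have h2 : ∀ x, (lt w x : ℝ) = u x + ρ x := by
      intro x
      rw [hD.fam.cnt w hw]; push_cast; rfl
    simp_rw [h2] at h1
    rw [(summable_fs hus).tsum_add (summable_fs (fs_cast hρs)), hu, tsum_trans hGs hGm] at h1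
    linarith [h1, mul_comm (V : ℝ) m]
  set v : Site d → ℝ := fun x => (if x = 0 then (1 : ℝ) else 0) + ((ρ x : ℝ) +
    (lineU r (⟨0, hd⟩, true) x : ℝ)) with hv
  have h0s : (Function.support fun x : Site d => if x = 0 then (1 : ℝ) else 0).Finite :=
    (Set.finite_singleton (0 : Site d)).subset fun x hx => by
      by_contra h; exact hx (if_neg h)
  have hls : (Function.support fun x : Site d => (lineU r (⟨0, hd⟩, true) x : ℝ)).Finite := by
    have h1 : (lineU r (⟨0, hd⟩, true) : Site d → ℕ) = lt (List.replicate r (⟨0, hd⟩, true)) :=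
      funext fun x => (lt_replicate r _ x).symm
    refine fs_cast ?_
    rw [h1]; exact lt_support _
  have hlm : ∑' x : Site d, (lineU r (⟨0, hd⟩, true) x : ℝ) = r := by
    have h1 := tsum_lt (List.replicate r ((⟨0, hd⟩, true) : Step d))
    rw [List.length_replicate] at h1
    rw [← h1]
    exact tsum_congr fun x => by rw [lt_replicate]
  have hvs : (Function.support v).Finite := fs_add h0s (fs_add (fs_cast hρs) hls)
  have hv0 : ∀ x, 0 ≤ v x := fun x => by
    rw [hv]; positivity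
  have hv1 : ∀ x, v x ≤ 2 * d + 2 := fun x => by
    have h1 : (ρ x : ℝ) ≤ 2 * d := by exact_mod_cast hD.le x
    have h2 : (lineU r (⟨0, hd⟩, true) x : ℝ) ≤ 1 := by exact_mod_cast lineU_le_one r _ x
    have h3 : (if x = 0 then (1 : ℝ) else 0) ≤ 1 := by split_ifs <;> norm_num
    rw [hv]; dsimp only; linarith
  have hvm : ∑' x, v x = 1 + ((m' - m * V) + r) := by
    rw [hv, (summable_fs h0s).tsum_add ((summable_fs (fs_cast hρs)).add (summable_fs hls)),
      (summable_fs (fs_cast hρs)).tsum_add (summable_fs hls), tsum_ind, hρm, hlm]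
  have hm' : (m' : ℝ) ≤ (m + 2 * d) * V := by exact_mod_cast hD.hi
  have hloc : loc (w ++ List.replicate r (⟨0, hd⟩, true)) = fun x => u x + v x := by
    funext x
    rw [loc, lt_append, hD.fam.cl w hw, sub_zero, lt_replicate, hD.fam.cnt w hw, hu, hv]
    push_cast
    ring
  rw [hloc]
  refine (En_add hd hγ hβ hus hvs).trans (add_le_add ?_ ?_)
  · refine mul_le_mul_of_nonneg_left ?_ (by norm_num)
    rw [En_eq hd hus]
    have hKr : (0 : ℝ) < K := by exact_mod_cast hK
    have hdr : (0 : ℝ) < d := by exact_mod_cast hd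
    have h1 : ∑ i : Fin d, ∑' x, (u (x + vec (i, true)) - u x) ^ 2 ≤ d * (2 * m ^ 2 * (V / K)) := by
      calc ∑ i : Fin d, ∑' x, (u (x + vec (i, true)) - u x) ^ 2 ≤
          ∑ _i : Fin d, (2 * m ^ 2 * ((V : ℝ) / K)) := by
            refine Finset.sum_le_sum fun i _ => ?_
            refine (tsum_trans_diff hGs hGm (bx κ d) (vec (i, true))).trans ?_
            refine mul_le_mul_of_nonneg_left ?_ (by positivity)
            rw [le_div_iff₀ hKr]
            have := card_face i (hκ i)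
            rw [mul_comm]
            exact_mod_cast this
        _ = _ := by rw [Finset.sum_const, Finset.card_univ, Fintype.card_fin, nsmul_eq_mul]
    have h2 : (β - γ) * ∑' x, u x ^ 2 ≤ (β - γ) * (m ^ 2 * V) :=
      mul_le_mul_of_nonneg_left (tsum_trans_sq hGs hGm _) (by linarith)
    have h3 : γ / (2 * d) * ∑ i : Fin d, ∑' x, (u (x + vec (i, true)) - u x) ^ 2 ≤
        γ / (2 * d) * (d * (2 * m ^ 2 * (V / K))) :=
      mul_le_mul_of_nonneg_left h1 (by positivity)
    have h4 : γ / (2 * d) * (d * (2 * m ^ 2 * ((V : ℝ) / K))) = γ * m ^ 2 * V / K := by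
      field_simp
    linarith
  · refine mul_le_mul_of_nonneg_left ?_ (by norm_num)
    refine (En_le hγ hv0).trans (mul_le_mul_of_nonneg_left ?_ (hγ.trans hβ))
    calc ∑' x, v x ^ 2 ≤ ∑' x, (2 * d + 2) * v x := by
          refine Summable.tsum_le_tsum (fun x => ?_) (summable_fs (fs_sq hvs))
            ((summable_fs hvs).mul_left _)
          rw [sq]
          exact mul_le_mul_of_nonneg_right (hv1 x) (hv0 x)
      _ = (2 * d + 2) * (1 + ((m' - m * V) + r)) := by rw [tsum_mul_left, hvm]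
      _ ≤ _ := by
        refine mul_le_mul_of_nonneg_left ?_ (by positivity)
        linarith

theorem Zw_lower (hd : 0 < d) {β ε : ℝ} (hβ : 0 < β) (hε : 0 < ε) :
    ∃ (γ₀ : ℝ) (n₀ : ℕ), 0 ≤ γ₀ ∧ γ₀ < β ∧ ∀ γ, γ₀ ≤ γ → γ ≤ β → ∀ n, n₀ ≤ n →
      Real.exp (n * (Real.log (2 * d) - ε)) ≤ Zw d β γ n := by
  classical
  have hd1 : (1 : ℝ) ≤ d := by exact_mod_cast hd
  set c : ℝ := Real.log (2 * d) with hc
  have hc0 : 0 ≤ c := Real.log_nonneg (by linarith)
  obtain ⟨M, hM⟩ := exists_nat_ge (8 * (2 * d * c + 2 * β * (2 * d + 2) * (2 * d)) / ε)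
  obtain ⟨m, W, G, hMm, hm0, hW, hWn, hWl⟩ := exists_fam hd (ε := ε / 8) (by positivity) M
  have hm0' : (0 : ℝ) < m := by exact_mod_cast hm0
  have hm1 : 2 * d * c + 2 * β * (2 * d + 2) * (2 * d) ≤ ε / 8 * m := by
    have h1 : (M : ℝ) ≤ m := by exact_mod_cast hMm
    have h2 := hM.trans h1
    rw [div_le_iff₀ hε] at h2
    linarith
  obtain ⟨K, hK⟩ := exists_nat_ge (16 * β * m / ε + 1)
  have hK0 : 0 < K := by
    have : (0 : ℝ) < K := lt_of_lt_of_le (by positivity) hK
    exact_mod_cast this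
  have hK0' : (0 : ℝ) < K := by exact_mod_cast hK0
  have hK1 : 2 * β * m / K ≤ ε / 8 := by
    rw [div_le_iff₀ hK0']
    have h2 : 16 * β * m / ε ≤ K := by linarith
    rw [div_le_iff₀ hε] at h2
    linarith
  obtain ⟨W₁, m₁, ρ₁, hD₁⟩ := Dat.exists_all hW (κ := fun _ => K) (fun _ => hK0) (d - 1) (by omega)
  set R := m₁ + 2 with hR
  obtain ⟨n₁, hn₁⟩ := exists_nat_ge ((R * c + 2 * β * (2 * d + 2) * (1 + R)) / (ε / 8))
  refine ⟨max 0 (β - ε / (16 * m)), n₁ + R * K, le_max_left _ _, max_lt hβ ?_, ?_⟩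
  · have : 0 < ε / (16 * m) := by positivity
    linarith
  intro γ hγ hγβ n hn
  have hγ0 : 0 ≤ γ := (le_max_left _ _).trans hγ
  have hγ1 : (β - γ) * (16 * m) ≤ ε := by
    have h1 := (le_max_right 0 (β - ε / (16 * m))).trans hγ
    have h2 : β - γ ≤ ε / (16 * m) := by linarith
    rwa [le_div_iff₀ (by positivity)] at h2
  set q := n / R with hq
  set r := n % R with hr
  have hqr : R * q + r = n := Nat.div_add_mod n R
  have hrR : r < R := Nat.mod_lt _ (by omega)
  have hqK : K ≤ q := by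
    rw [hq, Nat.le_div_iff_mul_le (by omega)]
    rw [mul_comm]; omega
  set κ : Fin d → ℕ := fun i => if (i : ℕ) + 1 < d then K else q with hκ
  have hκK : ∀ i, K ≤ κ i := fun i => by
    rw [hκ]; dsimp only; split_ifs
    · exact le_rfl
    · exact hqK
  have hD₂ : Dat W m G κ (d - 1) W₁ m₁ ρ₁ := by
    refine hD₁.congr (bx_congr fun i hi => ?_)
    rw [hκ]; dsimp only; rw [if_pos (by omega)]
  obtain ⟨W₂, ρ₂, hD₃⟩ := hD₂.step (by omega) (fun i => le_trans hK0 (hκK i))
  have hκl : κ ⟨d - 1, by omega⟩ = q := by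
    rw [hκ]; dsimp only; rw [if_neg (by omega)]
  rw [hκl, ← hR, show d - 1 + 1 = d by omega] at hD₃
  set V := (bx κ d).card with hV
  set s : Step d := (⟨0, hd⟩, true) with hs
  set E : ℝ := 2 * ((β - γ) * (m ^ 2 * V) + γ * m ^ 2 * V / K) +
      2 * (β * ((2 * d + 2) * (1 + 2 * d * V + r))) with hE
  have hEw : ∀ w ∈ W₂, En β γ (loc (w ++ List.replicate r s)) ≤ E := fun w hw =>
    En_loc_le hd hγ0 hγβ hW hWn hK0 hκK hD₃ hw r
  set W₃ := W₂.image fun w => w ++ List.replicate r s with hW₃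
  have hW₃c : W₃.card = W.card ^ V := by
    rw [hW₃, Finset.card_image_of_injective _ (List.append_left_injective _), hD₃.card]
  have hsub : W₃ ⊆ allw d n := by
    intro w hw
    obtain ⟨w', hw', rfl⟩ := Finset.mem_image.mp hw
    rw [mem_allw, List.length_append, List.length_replicate, hD₃.fam.len w' hw']
    rw [← hqr]; ring
  have hZ : (W₃.card : ℝ) * Real.exp (-E) ≤ Zw d β γ n := by
    calc (W₃.card : ℝ) * Real.exp (-E) = ∑ _w ∈ W₃, Real.exp (-E) := by
          rw [Finset.sum_const, nsmul_eq_mul]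
      _ ≤ ∑ w ∈ W₃, Real.exp (-En β γ (loc w)) := by
        refine Finset.sum_le_sum fun w hw => ?_
        obtain ⟨w', hw', rfl⟩ := Finset.mem_image.mp hw
        exact Real.exp_le_exp.mpr (neg_le_neg (hEw w' hw'))
      _ ≤ _ := Finset.sum_le_sum_of_subset_of_nonneg hsub fun w _ _ => (Real.exp_pos _).le
  refine le_trans ?_ hZ
  have hWc : (0 : ℝ) < W.card := by exact_mod_cast Finset.card_pos.mpr hWn
  rw [hW₃c]
  push_cast
  rw [← Real.exp_log (pow_pos hWc V), Real.log_pow, ← Real.exp_add]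
  refine Real.exp_le_exp.mpr ?_
  -- the final count
  have hn0 : (m : ℝ) * V ≤ n := by
    have h1 := hD₃.lo
    rw [← hV] at h1
    have h2 : m * V ≤ n := by
      rw [← hqr, mul_comm R q]; omega
    exact_mod_cast h2
  have hn2 : (n : ℝ) ≤ (m + 2 * d) * V + r := by
    have h1 := hD₃.hi
    rw [← hV] at h1
    have h2 : n ≤ (m + 2 * d) * V + r := by
      rw [← hqr, mul_comm R q]; omega
    exact_mod_cast h2
  have hrR' : (r : ℝ) ≤ R := by exact_mod_cast hrR.le
  have hn3 : R * c + 2 * β * (2 * d + 2) * (1 + R) ≤ ε / 8 * n := by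
    have h1 : (n₁ : ℝ) ≤ n := by
      have : n₁ ≤ n := le_trans (Nat.le_add_right _ _) hn
      exact_mod_cast this
    have h2 := hn₁.trans h1
    rw [div_le_iff₀ (by positivity)] at h2
    linarith
  have hV0 : (0 : ℝ) ≤ V := Nat.cast_nonneg _
  have t1 : V * (m * (c - ε / 8)) ≤ V * Real.log W.card := mul_le_mul_of_nonneg_left hWl hV0
  have hmV : (0 : ℝ) ≤ m * V := by positivity
  have t2 : 2 * ((β - γ) * (m ^ 2 * V)) ≤ ε / 8 * (m * V) := by
    have : (β - γ) * (16 * m) * (m * V) ≤ ε * (m * V) := mul_le_mul_of_nonneg_right hγ1 hmV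
    linarith [this, show (β - γ) * (16 * m) * (m * V) = 16 * ((β - γ) * (m ^ 2 * V)) by ring]
  have t3 : 2 * (γ * m ^ 2 * V / K) ≤ ε / 8 * (m * V) := by
    have h1 : 2 * γ * m / K ≤ ε / 8 := by
      refine le_trans ?_ hK1
      gcongr
    have h2 := mul_le_mul_of_nonneg_right h1 hmV
    have h3 : 2 * γ * m / K * (m * V) = 2 * (γ * m ^ 2 * V / K) := by ring
    linarith
  have t4 : (2 * d * c + 2 * β * (2 * d + 2) * (2 * d)) * V ≤ ε / 8 * (m * V) := by
    have := mul_le_mul_of_nonneg_right hm1 hV0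
    linarith
  have t5 : r * c + 2 * β * (2 * d + 2) * (1 + r) ≤ ε / 8 * n := by
    refine le_trans ?_ hn3
    gcongr
  have t6 : ε / 8 * (m * V) ≤ ε / 8 * n := mul_le_mul_of_nonneg_left hn0 (by positivity)
  have t7 : c * n ≤ c * ((m + 2 * d) * V + r) := mul_le_mul_of_nonneg_left hn2 hc0
  have t8 : (0 : ℝ) ≤ ε * n := by positivity
  rw [hE]
  linarith
end Pool.Agent.DCOL
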