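import Pool.Agent.Lib.DCOL.Insert

/-!
The polymer model on sequences of unit steps.
-/

set_option autoImplicit false

namespace Pool.Agent.DCOL

open Finset

variable {d n : ℕ}

/-- The position after `i` steps. -/
def pos (s : Fin n → Step d) (i : ℕ) : Site d := (((List.ofFn s).take i).map vec).sum

/-- The local time at `x`: the number of times `0 ≤ i ≤ n` with position `x`. -/
def localTime (s : Fin n → Step d) (x : Site d) : ℕ :=
  ((Finset.range (n + 1)).filter fun i => pos s i = x).card

/-- The visited sites. -/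
def visited (s : Fin n → Step d) : Finset (Site d) := (Finset.range (n + 1)).image (pos s)

/-- The energy `β ∑ ℓ(x)² - (γ / 2 d) ∑ ℓ(x) ℓ(y)`, the second sum over all ordered pairs of
neighbours. -/
noncomputable def energy (β γ : ℝ) (s : Fin n → Step d) : ℝ :=
  β * ∑' x, (localTime s x : ℝ) ^ 2 -
    γ / (2 * d) * ∑' x, ∑ u : Step d, (localTime s x : ℝ) * localTime s (x + vec u)

/-- The partition function. -/
noncomputable def partitionFunction (d : ℕ) (β γ : ℝ) (n : ℕ) : ℝ :=
  ∑ s : Fin n → Step d, Real.exp (-energy β γ s)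

open Classical in
/-- The probability of an event under the polymer law. -/
noncomputable def prob (d : ℕ) (β γ : ℝ) (n : ℕ) (A : (Fin n → Step d) → Prop) : ℝ :=
  (∑ s with A s, Real.exp (-energy β γ s)) / partitionFunction d β γ n

/-- The mean square end-to-end distance. -/
noncomputable def meanSquare (d : ℕ) (β γ : ℝ) (n : ℕ) : ℝ :=
  (∑ s : Fin n → Step d, (∑ i, (pos s n i : ℝ) ^ 2) * Real.exp (-energy β γ s)) /
    partitionFunction d β γ n

theorem lt_eq_card (w : List (Step d)) (x : Site d) :
    lt w x = ∑ i ∈ Finset.range w.length, if endp (w.take (i + 1)) = x then 1 else 0 := by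
  induction w generalizing x with
  | nil => simp
  | cons s w ih =>
    rw [lt_cons, ih, List.length_cons, Finset.sum_range_succ', add_comm]
    congr 1
    · refine Finset.sum_congr rfl fun i _ => ?_
      have : (endp ((s :: w).take (i + 1 + 1)) = x) ↔ (endp (w.take (i + 1)) = x - vec s) := by
        rw [List.take_succ_cons, endp_cons, eq_sub_iff_add_eq, add_comm]
      simp only [this]
    · have : (endp ((s :: w).take (0 + 1)) = x) ↔ (x = vec s) := by
        rw [List.take_succ_cons, List.take_zero, endp_cons, endp_nil, add_zero, eq_comm]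
      simp only [this]

theorem locN_eq_card (w : List (Step d)) (x : Site d) :
    locN w x = ((Finset.range (w.length + 1)).filter fun i => endp (w.take i) = x).card := by
  rw [locN, lt_eq_card, Finset.card_filter, Finset.sum_range_succ', add_comm]
  congr 1
  have : (endp (w.take 0) = x) ↔ (x = 0) := by
    rw [List.take_zero, endp_nil, eq_comm]
  simp only [this]

theorem localTime_eq (s : Fin n → Step d) (x : Site d) :
    localTime s x = locN (List.ofFn s) x := by
  rw [locN_eq_card, List.length_ofFn]
  rfl

theorem visited_eq (s : Fin n → Step d) : visited s = vis 0 (List.ofFn s) := by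
  ext y
  rw [mem_vis0, locN_eq_card, List.length_ofFn, Finset.card_ne_zero, visited, Finset.mem_image]
  constructor
  · rintro ⟨i, hi, h⟩
    exact ⟨i, Finset.mem_filter.mpr ⟨hi, h⟩⟩
  · rintro ⟨i, hi⟩
    exact ⟨i, (Finset.mem_filter.mp hi).1, (Finset.mem_filter.mp hi).2⟩

theorem loc_eq (w : List (Step d)) (x : Site d) : loc w x = (locN w x : ℝ) := by
  rw [loc, locN]; push_cast; rfl

theorem energy_eq (β γ : ℝ) (s : Fin n → Step d) : energy β γ s = En β γ (loc (List.ofFn s)) := by
  rw [energy, En]
  simp_rw [loc_eq, localTime_eq]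

theorem sum_words {M : Type*} [AddCommMonoid M] (f : List (Step d) → M) :
    ∑ s : Fin n → Step d, f (List.ofFn s) = ∑ w ∈ allw d n, f w := by
  rw [allw, Finset.sum_map]
  rfl

theorem partition_eq (β γ : ℝ) : partitionFunction d β γ n = Zw d β γ n := by
  rw [partitionFunction, Zw, ← sum_words fun w => Real.exp (-En β γ (loc w))]
  exact Finset.sum_congr rfl fun s _ => by rw [energy_eq]

theorem pos_end (s : Fin n → Step d) : pos s n = endp (List.ofFn s) := by
  rw [pos, List.take_of_length_le (by rw [List.length_ofFn]), endp]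

/-- The sum of the absolute values of the coordinates. -/
def norm1 (x : Site d) : ℕ := ∑ i, (x i).natAbs

theorem norm1_vec (s : Step d) : norm1 (vec s) = 1 := by
  rcases s with ⟨i, b⟩
  rw [norm1, Finset.sum_eq_single i]
  · cases b <;> simp [vec]
  · intro j _ hj
    cases b <;> simp [vec, hj]
  · intro h; exact absurd (Finset.mem_univ i) h

theorem norm1_add_vec (p : Site d) (s : Step d) : norm1 (p + vec s) ≤ norm1 p + 1 := by
  rw [← norm1_vec s, norm1, norm1, norm1, ← Finset.sum_add_distrib]
  exact Finset.sum_le_sum fun i _ => Int.natAbs_add_le _ _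

theorem exists_norm (w : List (Step d)) : ∀ (p : Site d) (k : ℕ), norm1 p ≤ k →
    k ≤ norm1 (p + endp w) → ∃ y ∈ vis p w, norm1 y = k := by
  induction w with
  | nil =>
    intro p k h1 h2
    rw [endp_nil, add_zero] at h2
    exact ⟨p, by simp [vis], le_antisymm h1 h2⟩
  | cons s w ih =>
    intro p k h1 h2
    by_cases h : norm1 p = k
    · exact ⟨p, by simp [vis], h⟩
    · have h3 := norm1_add_vec p s
      obtain ⟨y, hy, hy'⟩ := ih (p + vec s) k (by omega) (by
        rwa [endp_cons, ← add_assoc] at h2)
      exact ⟨y, by rw [vis]; exact Finset.mem_insert_of_mem hy, hy'⟩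

theorem norm1_lt_card (w : List (Step d)) : norm1 (endp w) + 1 ≤ (vis 0 w).card := by
  have h : Finset.range (norm1 (endp w) + 1) ⊆ (vis 0 w).image norm1 := by
    intro k hk
    rw [Finset.mem_range] at hk
    obtain ⟨y, hy, hy'⟩ := exists_norm w 0 k (by simp [norm1]) (by rw [zero_add]; omega)
    exact Finset.mem_image.mpr ⟨y, hy, hy'⟩
  calc norm1 (endp w) + 1 = (Finset.range (norm1 (endp w) + 1)).card := (Finset.card_range _).symm
    _ ≤ ((vis 0 w).image norm1).card := Finset.card_le_card h
    _ ≤ _ := Finset.card_image_le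

theorem sq_le_norm1 (x : Site d) : ∑ i, (x i : ℝ) ^ 2 ≤ (norm1 x : ℝ) ^ 2 := by
  have h1 : ∀ i, (x i : ℝ) ^ 2 = (((x i).natAbs : ℕ) : ℝ) ^ 2 := fun i => by
    rw [Nat.cast_natAbs, Int.cast_abs, sq_abs]
  simp_rw [h1]
  rw [norm1]
  push_cast
  exact Finset.sum_sq_le_sq_sum_of_nonneg fun i _ => by positivity

end Pool.Agent.DCOL
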