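import Mathlib

/-!
Words of unit steps in `ℤ ^ d`, their end points and their visit counts.
-/

set_option autoImplicit false

namespace Pool.Agent.DCOL

/-- The sites of the lattice. -/
abbrev Site (d : ℕ) : Type := Fin d → ℤ

/-- The steps: a coordinate and a sign. -/
abbrev Step (d : ℕ) : Type := Fin d × Bool

variable {d : ℕ}

/-- The unit vector of a step. -/
def vec (s : Step d) : Site d := if s.2 then Pi.single s.1 1 else -Pi.single s.1 1

/-- The opposite step. -/
def opp (s : Step d) : Step d := (s.1, !s.2)

theorem vec_opp (s : Step d) : vec (opp s) = -vec s := by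
  rcases s with ⟨i, b⟩
  cases b <;> simp [vec, opp]

/-- The end point of a word of steps that starts at the origin. -/
def endp (w : List (Step d)) : Site d := (w.map vec).sum

@[simp] theorem endp_nil : endp ([] : List (Step d)) = 0 := rfl

@[simp] theorem endp_cons (s : Step d) (w : List (Step d)) : endp (s :: w) = vec s + endp w := by
  simp [endp]

theorem endp_append (u v : List (Step d)) : endp (u ++ v) = endp u + endp v := by
  simp [endp]

theorem endp_opp (w : List (Step d)) : endp (w.map opp) = -endp w := by
  induction w with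
  | nil => simp
  | cons s w ih => rw [List.map_cons, endp_cons, endp_cons, ih, vec_opp]; abel

theorem endp_replicate (n : ℕ) (s : Step d) : endp (List.replicate n s) = n • vec s := by
  induction n with
  | zero => simp
  | succ n ih => rw [List.replicate_succ, endp_cons, ih, succ_nsmul']

/-- The number of visits to `x` at the times `1, …, |w|`. -/
def lt : List (Step d) → Site d → ℕ
  | [], _ => 0
  | s :: w, x => (if x = vec s then 1 else 0) + lt w (x - vec s)

@[simp] theorem lt_nil (x : Site d) : lt [] x = 0 := rfl

theorem lt_cons (s : Step d) (w : List (Step d)) (x : Site d) :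
    lt (s :: w) x = (if x = vec s then 1 else 0) + lt w (x - vec s) := rfl

theorem lt_append (u v : List (Step d)) (x : Site d) :
    lt (u ++ v) x = lt u x + lt v (x - endp u) := by
  induction u generalizing x with
  | nil => simp
  | cons s u ih => rw [List.cons_append, lt_cons, ih, lt_cons, endp_cons, add_assoc, sub_sub]

theorem lt_support (w : List (Step d)) : (Function.support (lt w)).Finite := by
  induction w with
  | nil =>
    have : Function.support (lt ([] : List (Step d))) = ∅ := by
      ext x; simp
    rw [this]; exact Set.finite_empty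
  | cons s w ih =>
    have h : Function.support (lt (s :: w)) ⊆ {vec s} ∪ (fun y => y + vec s) '' Function.support (lt w) := by
      intro x hx
      rw [Function.mem_support, lt_cons] at hx
      by_cases h : x = vec s
      · exact Or.inl h
      · right
        rw [if_neg h, zero_add] at hx
        exact ⟨x - vec s, hx, by simp⟩
    exact ((Set.finite_singleton _).union (ih.image _)).subset h

/-- Shifts of functions with finite support. -/
theorem support_shift {R : Type*} [Zero R] {f : Site d → R} (hf : (Function.support f).Finite)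
    (a : Site d) : (Function.support fun x => f (x - a)).Finite := by
  refine (hf.image fun y => y + a).subset ?_
  intro x hx
  exact ⟨x - a, hx, by simp⟩

theorem tsum_shift (f : Site d → ℝ) (a : Site d) : ∑' x, f (x - a) = ∑' x, f x :=
  (Equiv.subRight a).tsum_eq f

theorem tsum_ind (a : Site d) : ∑' x : Site d, (if x = a then (1 : ℝ) else 0) = 1 :=
  tsum_ite_eq a (fun _ => (1 : ℝ))

theorem summable_fs {f : Site d → ℝ} (hf : (Function.support f).Finite) : Summable f :=
  summable_of_hasFiniteSupport hf

theorem tsum_lt (w : List (Step d)) : ∑' x, (lt w x : ℝ) = w.length := by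
  induction w with
  | nil => simp
  | cons s w ih =>
    have h1 : Summable fun x : Site d => (if x = vec s then (1 : ℝ) else 0) :=
      summable_fs ((Set.finite_singleton (vec s)).subset fun x hx => by
        by_contra h; exact hx (if_neg h))
    have h2 : Summable fun x : Site d => (lt w (x - vec s) : ℝ) := by
      refine summable_fs ((support_shift (lt_support w) (vec s)).subset fun x hx => ?_)
      intro h
      exact hx (by simp only; rw [show lt w (x - vec s) = 0 from h]; simp)
    have h3 : ∀ x : Site d, (lt (s :: w) x : ℝ) = (if x = vec s then (1 : ℝ) else 0)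
        + (lt w (x - vec s) : ℝ) := by
      intro x
      rw [lt_cons]; push_cast; rfl
    simp_rw [h3]
    rw [h1.tsum_add h2, tsum_ind, tsum_shift (fun x => (lt w x : ℝ)), ih, List.length_cons]
    push_cast; ring

/-- A set of closed words of one length with one visit count. -/
structure Fam (W : Finset (List (Step d))) (m : ℕ) (G : Site d → ℕ) : Prop where
  len : ∀ w ∈ W, w.length = m
  cl : ∀ w ∈ W, endp w = 0
  cnt : ∀ w ∈ W, ∀ x, lt w x = G x

/-- A set of words of one length with one end point and one visit count. -/
structure Fam' (W : Finset (List (Step d))) (m : ℕ) (a : Site d) (G : Site d → ℕ) : Prop where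
  len : ∀ w ∈ W, w.length = m
  cl : ∀ w ∈ W, endp w = a
  cnt : ∀ w ∈ W, ∀ x, lt w x = G x

theorem Fam'.append {W W' : Finset (List (Step d))} {m m' : ℕ} {a a' : Site d}
    {G G' : Site d → ℕ} (h : Fam' W m a G) (h' : Fam' W' m' a' G') :
    ∃ W'' : Finset (List (Step d)), W''.card = W.card * W'.card ∧
      Fam' W'' (m + m') (a + a') (fun x => G x + G' (x - a)) := by
  classical
  refine ⟨(W ×ˢ W').image fun p => p.1 ++ p.2, ?_, ?_, ?_, ?_⟩
  · rw [Finset.card_image_of_injOn, Finset.card_product]
    rintro ⟨u, v⟩ hu ⟨u', v'⟩ hu' he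
    rw [Finset.mem_coe, Finset.mem_product] at hu hu'
    have := List.append_inj he (by rw [h.len _ hu.1, h.len _ hu'.1])
    exact Prod.ext this.1 this.2
  · intro w hw
    obtain ⟨p, hp, rfl⟩ := Finset.mem_image.mp hw
    rw [Finset.mem_product] at hp
    rw [List.length_append, h.len _ hp.1, h'.len _ hp.2]
  · intro w hw
    obtain ⟨p, hp, rfl⟩ := Finset.mem_image.mp hw
    rw [Finset.mem_product] at hp
    rw [endp_append, h.cl _ hp.1, h'.cl _ hp.2]
  · intro w hw x
    obtain ⟨p, hp, rfl⟩ := Finset.mem_image.mp hw
    rw [Finset.mem_product] at hp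
    rw [lt_append, h.cl _ hp.1, h.cnt _ hp.1, h'.cnt _ hp.2]

theorem Fam'.single (w : List (Step d)) : Fam' {w} w.length (endp w) (lt w) :=
  ⟨fun u hu => by rw [Finset.mem_singleton.mp hu], fun u hu => by rw [Finset.mem_singleton.mp hu],
    fun u hu x => by rw [Finset.mem_singleton.mp hu]⟩

theorem Fam.to {W : Finset (List (Step d))} {m : ℕ} {G : Site d → ℕ} (h : Fam W m G) :
    Fam' W m 0 G := ⟨h.len, h.cl, h.cnt⟩

/-- The visit counts of the row of steps between the blocks. -/
def lineU (κ : ℕ) (e : Step d) (x : Site d) : ℕ :=
  ∑ i ∈ Finset.range κ, (if x = (i + 1) • vec e then 1 else 0)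

/-- The visit counts of the way back. -/
def lineD (κ : ℕ) (e : Step d) (x : Site d) : ℕ :=
  ∑ i ∈ Finset.range κ, (if x = i • vec e then 1 else 0)

theorem Fam.rowU {W : Finset (List (Step d))} {m : ℕ} {G : Site d → ℕ} (h : Fam W m G) (κ : ℕ)
    (e : Step d) : ∃ W' : Finset (List (Step d)), W'.card = W.card ^ κ ∧
      Fam' W' (κ * (m + 1)) (κ • vec e)
        (fun x => (∑ i ∈ Finset.range κ, G (x - i • vec e)) + lineU κ e x) := by
  induction κ with
  | zero =>
    refine ⟨{[]}, by simp, ?_⟩
    have := Fam'.single ([] : List (Step d))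
    refine ⟨fun u hu => by rw [this.len u hu]; simp, fun u hu => by rw [this.cl u hu]; simp,
      fun u hu x => by rw [this.cnt u hu]; simp [lineU]⟩
  | succ κ ih =>
    obtain ⟨W', hc, hW'⟩ := ih
    obtain ⟨W1, hc1, hW1⟩ := hW'.append h.to
    obtain ⟨W2, hc2, hW2⟩ := hW1.append (Fam'.single [e])
    refine ⟨W2, by rw [hc2, hc1, hc]; simp [pow_succ], ?_, ?_, ?_⟩
    · intro w hw
      rw [hW2.len w hw]; simp; ring
    · intro w hw
      rw [hW2.cl w hw, endp_cons, endp_nil, add_zero, add_zero, succ_nsmul]
    · intro w hw x
      rw [hW2.cnt w hw]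
      simp only [lineU, Finset.sum_range_succ, lt_cons, lt_nil, add_zero]
      have : (x - κ • vec e = vec e) ↔ (x = (κ + 1) • vec e) := by
        rw [sub_eq_iff_eq_add, succ_nsmul']
      simp only [this]
      ring

theorem lt_replicate_opp (κ : ℕ) (e : Step d) (x : Site d) :
    lt (List.replicate κ (opp e)) (x - κ • vec e) = lineD κ e x := by
  induction κ with
  | zero => simp [lineD]
  | succ κ ih =>
    rw [List.replicate_succ, lt_cons, vec_opp, sub_neg_eq_add]
    have h1 : x - (κ + 1) • vec e + vec e = x - κ • vec e := by
      rw [succ_nsmul']; abel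
    rw [h1, ih, lineD, lineD, Finset.sum_range_succ]
    have h2 : (x - (κ + 1) • vec e = -vec e) ↔ (x = κ • vec e) := by
      rw [← add_left_inj (vec e), h1, neg_add_cancel, sub_eq_zero]
    simp only [h2]
    ring

/-- One direction of the box: the word does a block at each site of a row and walks back. -/
theorem Fam.row {W : Finset (List (Step d))} {m : ℕ} {G : Site d → ℕ} (h : Fam W m G) (κ : ℕ)
    (e : Step d) : ∃ W' : Finset (List (Step d)), W'.card = W.card ^ κ ∧
      Fam W' (κ * (m + 2))
        (fun x => (∑ i ∈ Finset.range κ, G (x - i • vec e)) + (lineU κ e x + lineD κ e x)) := by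
  obtain ⟨W', hc, hW'⟩ := h.rowU κ e
  obtain ⟨W1, hc1, hW1⟩ := hW'.append (Fam'.single (List.replicate κ (opp e)))
  refine ⟨W1, by rw [hc1, hc]; simp, ?_, ?_, ?_⟩
  · intro w hw
    rw [hW1.len w hw]; simp; ring
  · intro w hw
    rw [hW1.cl w hw, endp_replicate, vec_opp]; simp
  · intro w hw x
    rw [hW1.cnt w hw, lt_replicate_opp]; ring

end Pool.Agent.DCOL
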